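import Pool.Agent.Work.MP_79a731_al.CS.Stmts

set_option autoImplicit false

namespace Pool.MP_79a731_al.CS

open Function Pool.MP_79a731_al.H5

noncomputable section

universe u v

variable {G : Type u} [Group G]

namespace IC1

lemma cs_left (L : Subgroup G) (v h : G) (hv : v ∈ L) (y : MonoidAlgebra ℤ G) :
    cs L h (MonoidAlgebra.single v 1 * y) = cs L h y := by
  classical
  induction y using MonoidAlgebra.induction_linear with
  | zero => simp
  | add x y hx hy => rw [mul_add, map_add, map_add, hx, hy]
  | single k a =>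
    rw [MonoidAlgebra.single_mul_single, cs_single, cs_single, one_mul]
    have h1 : v * k * h⁻¹ ∈ L ↔ k * h⁻¹ ∈ L := by
      rw [mul_assoc]; exact Subgroup.mul_mem_cancel_left L hv
    by_cases h2 : k * h⁻¹ ∈ L
    · rw [if_pos h2, if_pos (h1.mpr h2)]
    · rw [if_neg h2, if_neg (fun h3 => h2 (h1.mp h3))]

lemma cs_smul_mul (L : Subgroup G) (h g : G) (a : ℤ) (y : MonoidAlgebra ℤ G) :
    cs L h (MonoidAlgebra.single g a * y) = a * cs L h (MonoidAlgebra.single g 1 * y) := by
  have h1 : (MonoidAlgebra.single g a : MonoidAlgebra ℤ G) = a • MonoidAlgebra.single g 1 := by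
    rw [MonoidAlgebra.smul_single, smul_eq_mul, mul_one]
  rw [h1, smul_mul_assoc, map_zsmul, smul_eq_mul]

/-- the representative of a right coset -/
def rp (L : Subgroup G) (k : G) : G :=
  Quotient.out (s := QuotientGroup.rightRel L) (Quotient.mk'' k)

lemma rp_mem (L : Subgroup G) (k : G) : k * (rp L k)⁻¹ ∈ L := by
  have h2 : (Quotient.mk'' (rp L k) : Quotient (QuotientGroup.rightRel L)) =
      Quotient.mk'' k := Quotient.out_eq' _
  rw [Quotient.eq'', QuotientGroup.rightRel_apply] at h2
  exact h2

lemma rp_eq (L : Subgroup G) (k k' : G) (h : k * k'⁻¹ ∈ L) : rp L k = rp L k' := by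
  unfold rp
  congr 1
  rw [Quotient.eq'', QuotientGroup.rightRel_apply]
  have h1 := L.inv_mem h
  simpa using h1

lemma rp_rp (L : Subgroup G) (k k0 : G) : rp L k = rp L k0 ↔ k * (rp L k0)⁻¹ ∈ L := by
  constructor
  · intro h; rw [← h]; exact rp_mem L k
  · intro h
    apply rp_eq
    have h1 := rp_mem L k0
    have h2 : k * k0⁻¹ = k * (rp L k0)⁻¹ * (k0 * (rp L k0)⁻¹)⁻¹ := by group
    rw [h2]
    exact L.mul_mem h (L.inv_mem h1)

variable {M : Type v} [AddCommGroup M] [Module (MonoidAlgebra ℤ G) M]

/-- the additive subgroup generated by the augmentation of `L` -/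
def AA (L : Subgroup G) (M : Type v) [AddCommGroup M] [Module (MonoidAlgebra ℤ G) M] :
    AddSubgroup M :=
  AddSubgroup.closure {x : M | ∃ g ∈ L, ∃ m : M,
    x = (MonoidAlgebra.single g (1 : ℤ) - 1 : MonoidAlgebra ℤ G) • m}

lemma sub_mem (L : Subgroup G) (m : M) (y : MonoidAlgebra ℤ G) :
    y • m - (y.coeff.sum fun k a => a • (MonoidAlgebra.single (rp L k) (1 : ℤ) • m : M)) ∈
      AA L M := by
  classical
  induction y using MonoidAlgebra.induction_linear with
  | zero => simp
  | add x y hx hy =>
    have h1 : (x + y).coeff.sum (fun k a => a • (MonoidAlgebra.single (rp L k) (1 : ℤ) • m : M)) =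
        x.coeff.sum (fun k a => a • (MonoidAlgebra.single (rp L k) (1 : ℤ) • m : M)) +
        y.coeff.sum (fun k a => a • (MonoidAlgebra.single (rp L k) (1 : ℤ) • m : M)) := by
      rw [MonoidAlgebra.coeff_add, Finsupp.sum_add_index']
      · intro a; simp
      · intro a b c; rw [add_smul]
    rw [h1, add_smul, add_sub_add_comm]
    exact AddSubgroup.add_mem _ hx hy
  | single k a =>
    rw [MonoidAlgebra.coeff_single, Finsupp.sum_single_index (by simp)]
    have h2 : (MonoidAlgebra.single k a : MonoidAlgebra ℤ G) = a • MonoidAlgebra.single k 1 := by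
      rw [MonoidAlgebra.smul_single, smul_eq_mul, mul_one]
    have h3 : (MonoidAlgebra.single k (1 : ℤ) : MonoidAlgebra ℤ G) =
        MonoidAlgebra.single (k * (rp L k)⁻¹) 1 * MonoidAlgebra.single (rp L k) 1 := by
      rw [MonoidAlgebra.single_mul_single, inv_mul_cancel_right, one_mul]
    have h4 : (MonoidAlgebra.single k a : MonoidAlgebra ℤ G) • m -
        a • (MonoidAlgebra.single (rp L k) (1 : ℤ) • m : M) =
        a • ((MonoidAlgebra.single (k * (rp L k)⁻¹) (1 : ℤ) - 1 : MonoidAlgebra ℤ G) •
          (MonoidAlgebra.single (rp L k) (1 : ℤ) • m : M)) := by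
      rw [h2, smul_assoc, ← smul_sub, sub_smul, one_smul, ← mul_smul, ← h3]
    rw [h4]
    refine AddSubgroup.zsmul_mem _ ?_ a
    exact AddSubgroup.subset_closure ⟨_, rp_mem L k, _, rfl⟩

lemma mem_of_cs (L : Subgroup G) (m : M) (y : MonoidAlgebra ℤ G) (hy : ∀ h, cs L h y = 0) :
    y • m ∈ AA L M := by
  classical
  have h1 := sub_mem L m y
  have h2 : (y.coeff.sum fun k a => a • (MonoidAlgebra.single (rp L k) (1 : ℤ) • m : M)) = 0 := by
    rw [Finsupp.sum]
    rw [← Finset.sum_fiberwise_of_maps_to (s := y.coeff.support)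
      (t := y.coeff.support.image (rp L)) (g := rp L)
      (fun k hk => Finset.mem_image_of_mem _ hk)]
    refine Finset.sum_eq_zero fun q hq => ?_
    obtain ⟨k0, -, rfl⟩ := Finset.mem_image.mp hq
    have h3 : ∑ k ∈ y.coeff.support with rp L k = rp L k0,
        y.coeff k • (MonoidAlgebra.single (rp L k) (1 : ℤ) • m : M) =
        (∑ k ∈ y.coeff.support with rp L k = rp L k0, y.coeff k) •
          (MonoidAlgebra.single (rp L k0) (1 : ℤ) • m : M) := by
      rw [Finset.sum_smul]
      refine Finset.sum_congr rfl fun k hk => ?_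
      rw [(Finset.mem_filter.mp hk).2]
    rw [h3]
    have h4 : ∑ k ∈ y.coeff.support with rp L k = rp L k0, y.coeff k = cs L (rp L k0) y := by
      rw [cs_apply, Finsupp.sum, Finset.sum_filter]
      refine Finset.sum_congr rfl fun k _ => ?_
      by_cases h5 : rp L k = rp L k0
      · rw [if_pos h5, if_pos ((rp_rp L k k0).mp h5)]
      · rw [if_neg h5, if_neg (fun h6 => h5 ((rp_rp L k k0).mpr h6))]
    rw [h4, hy, zero_smul]
  rw [h2, sub_zero] at h1
  exact h1

lemma cs_mul_right {n : ℕ} (L : Subgroup G) (h : G) (e : Mt G n) (he : Cs L e) (i j : Fin n)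
    (x : MonoidAlgebra ℤ G) : cs L h (x * e i j) = 0 := by
  induction x using MonoidAlgebra.induction_linear with
  | zero => simp
  | add x y hx hy => rw [add_mul, map_add, hx, hy, add_zero]
  | single g a => rw [cs_smul_mul, he, mul_zero]

end IC1

theorem pr_C1 : StC1.{u, v} := by
  intro G _ M _ _ hfin hproj
  classical
  obtain ⟨n, π, hπ⟩ := Module.Finite.exists_fin' (MonoidAlgebra ℤ G) M
  obtain ⟨s, hs⟩ := Module.projective_lifting_property π LinearMap.id hπ
  have hs' : ∀ m, π (s m) = m := fun m => congrArg (fun f : M →ₗ[MonoidAlgebra ℤ G] M => f m) hs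
  let e : Mt G n := Matrix.of fun i j => s (π (Pi.single i 1)) j
  have he : ∀ i j, e i j = s (π (Pi.single i 1)) j := fun i j => rfl
  have hx : ∀ x : Fin n → MonoidAlgebra ℤ G, s (π x) = fun j => ∑ i, x i * e i j := by
    intro x
    have h1 : x = ∑ i, x i • (Pi.single i 1 : Fin n → MonoidAlgebra ℤ G) := by
      rw [← pi_eq_sum_univ' x]
    funext j
    conv_lhs => rw [h1]
    rw [map_sum, map_sum, Finset.sum_apply]
    refine Finset.sum_congr rfl fun i _ => ?_
    rw [map_smul, map_smul, he]
    rfl
  refine ⟨n, e, ?_, ?_, ?_⟩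
  · ext1 i k
    rw [Matrix.mul_apply, he i k]
    have h1 := hx (s (π (Pi.single i 1)))
    rw [hs'] at h1
    rw [congrFun h1 k]
    rfl
  · intro h0
    refine ⟨fun a b => ?_⟩
    have h1 : ∀ m : M, m = 0 := by
      intro m
      obtain ⟨x, rfl⟩ := hπ m
      rw [← hs' (π x), hx x]
      simp only [h0, Matrix.zero_apply, mul_zero, Finset.sum_const_zero]
      exact map_zero π
    rw [h1 a, h1 b]
  · intro L
    constructor
    · intro hL
      let Z : AddSubgroup (Fin n → MonoidAlgebra ℤ G) :=
        { carrier := {x | ∀ j h, cs L h (x j) = 0}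
          add_mem' := fun {x y} hx hy j h => by rw [Pi.add_apply, map_add, hx j, hy j, add_zero]
          zero_mem' := fun j h => by rw [Pi.zero_apply, map_zero]
          neg_mem' := fun {x} hx j h => by rw [Pi.neg_apply, map_neg, hx j, neg_zero] }
      have h1 : (⊤ : AddSubgroup M) ≤ Z.comap s.toAddMonoidHom := by
        rw [← hL, AddSubgroup.closure_le]
        rintro _ ⟨g, hg, m, rfl⟩
        change s _ ∈ Z
        intro j h
        rw [map_smul, Pi.smul_apply, smul_eq_mul, sub_mul, one_mul, map_sub, IC1.cs_left L g h hg,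
          sub_self]
      intro i j g h
      have h2 := h1 (AddSubgroup.mem_top (MonoidAlgebra.single g (1 : ℤ) • π (Pi.single i 1))) j h
      change cs L h (s (MonoidAlgebra.single g (1 : ℤ) • π (Pi.single i 1)) j) = 0 at h2
      rw [map_smul] at h2
      exact h2
    · intro hL
      change IC1.AA L M = ⊤
      rw [eq_top_iff]
      intro m _
      have h1 : m = ∑ j, (∑ i, s m i * e i j) • π (Pi.single j 1) := by
        have h2 := hx (s m)
        rw [hs'] at h2
        have h3 : s m = ∑ j, s m j • (Pi.single j 1 : Fin n → MonoidAlgebra ℤ G) := by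
          rw [← pi_eq_sum_univ' (s m)]
        have h4 : m = π (s m) := (hs' m).symm
        rw [h3, map_sum] at h4
        conv_lhs => rw [h4]
        refine Finset.sum_congr rfl fun j _ => ?_
        rw [map_smul]
        congr 1
        exact congrFun h2 j
      rw [h1]
      refine AddSubgroup.sum_mem _ fun j _ => ?_
      apply IC1.mem_of_cs
      intro h
      rw [map_sum]
      exact Finset.sum_eq_zero fun i _ => IC1.cs_mul_right L h e hL i j _

end

end Pool.MP_79a731_al.CS
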