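import Pool.Agent.Work.MP_79a731_al.CS.Stmts

/-!
Item C2: minimal subgroups with vanishing coset sums.
-/

set_option autoImplicit false

namespace Pool.MP_79a731_al.CS

open Function Pool.MP_79a731_al.H5

universe u

namespace IC2

/-- the intersection of a chain -/
theorem chain {G : Type u} [Group G] {n : ℕ} {e : Mt G n} (c : Set (Subgroup G))
    (hc : ∀ V ∈ c, Cs V e) (htot : ∀ V ∈ c, ∀ W ∈ c, V ≤ W ∨ W ≤ V) (y : Subgroup G)
    (hy : y ∈ c) : Cs (sInf c) e := by
  classical
  intro i j g h
  have key : ∀ T : Finset G, (∀ k ∈ T, g * k * h⁻¹ ∉ sInf c) →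
      ∃ V ∈ c, ∀ k ∈ T, g * k * h⁻¹ ∉ V := by
    intro T
    induction T using Finset.induction_on with
    | empty => exact fun _ => ⟨y, hy, by simp⟩
    | insert a T ha ih =>
      intro hT
      obtain ⟨V, hV, hVT⟩ := ih fun k hk => hT k (Finset.mem_insert_of_mem hk)
      have h1 := hT a (Finset.mem_insert_self a T)
      rw [Subgroup.mem_sInf] at h1
      push Not at h1
      obtain ⟨W, hW, hWa⟩ := h1
      rcases htot V hV W hW with h2 | h2
      · refine ⟨V, hV, fun k hk => ?_⟩
        rcases Finset.mem_insert.1 hk with rfl | hk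
        · exact fun h3 => hWa (h2 h3)
        · exact hVT k hk
      · refine ⟨W, hW, fun k hk => ?_⟩
        rcases Finset.mem_insert.1 hk with rfl | hk
        · exact hWa
        · exact fun h3 => hVT k hk (h2 h3)
  obtain ⟨V, hV, hVT⟩ := key ((e i j).coeff.support.filter fun k => g * k * h⁻¹ ∉ sInf c)
    fun k hk => (Finset.mem_filter.1 hk).2
  have h1 := hc V hV i j g h
  rw [cs_filter] at h1 ⊢
  rw [← h1]
  refine Finset.sum_congr (Finset.filter_congr fun k hk => ?_) fun _ _ => rfl
  constructor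
  · exact fun h2 => sInf_le hV h2
  · intro h2
    by_contra h3
    exact hVT k (Finset.mem_filter.2 ⟨hk, h3⟩) h2

end IC2

theorem pr_C2 : StC2.{u} := by
  intro G _ n e L hL
  obtain ⟨m, hm1, hm2⟩ := zorn_le_nonempty₀ (α := (Subgroup G)ᵒᵈ)
    {V | Cs (OrderDual.ofDual V) e} (by
      intro c hcs hc y hy
      refine ⟨OrderDual.toDual (sInf {V : Subgroup G | OrderDual.toDual V ∈ c}), ?_, ?_⟩
      · refine IC2.chain {V : Subgroup G | OrderDual.toDual V ∈ c} (fun V hV => hcs hV) ?_
          (OrderDual.ofDual y) hy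
        intro V hV W hW
        exact (hc.total hV hW).symm
      · intro z hz
        have h1 : sInf {V : Subgroup G | OrderDual.toDual V ∈ c} ≤ OrderDual.ofDual z := sInf_le hz
        exact h1) (OrderDual.toDual L) hL
  refine ⟨OrderDual.ofDual m, hm1, hm2.prop, fun M hM hMe => ?_⟩
  have h1 := hm2.le_of_ge (y := OrderDual.toDual M) hMe hM.le
  exact absurd h1 (not_le_of_gt hM)

end Pool.MP_79a731_al.CS
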