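import Pool.Agent.Work.MP_79a731_al.CS.Stmts

/-!
Block CS, item C3: the subgroups with vanishing coset sums are confined.
-/

set_option autoImplicit false

namespace Pool.MP_79a731_al.CS

open Function Pool.MP_79a731_al.H5

universe u

namespace IC3

/-- if no conjugate `g v g⁻¹`, `v ∈ V`, is a nontrivial element of the supports of the diagonal
entries then the coefficients at `1` of the diagonal entries vanish -/
theorem coeff_one {G : Type u} [Group G] {n : ℕ} (e : Mt G n) (V : Subgroup G) (hV : Cs V e)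
    (g : G) (i : Fin n) (h : ∀ v ∈ V, g * v * g⁻¹ ≠ 1 → (e i i).coeff (g * v * g⁻¹) = 0) :
    (e i i).coeff 1 = 0 := by
  classical
  have h2 := hV i i g⁻¹ g⁻¹
  rw [cs_filter] at h2
  rw [Finset.sum_eq_single 1] at h2
  · exact h2
  · intro k hk hk1
    have hk2 := (Finset.mem_filter.1 hk).2
    have h3 : g * (g⁻¹ * k * g⁻¹⁻¹) * g⁻¹ = k := by group
    have h4 := h _ hk2 (by rw [h3]; exact hk1)
    rwa [h3] at h4
  · intro h1
    by_contra h3
    refine h1 (Finset.mem_filter.2 ⟨Finsupp.mem_support_iff.2 h3, ?_⟩)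
    have h4 : g⁻¹ * 1 * g⁻¹⁻¹ = 1 := by group
    rw [h4]
    exact V.one_mem

end IC3

theorem pr_C3 : StC3.{u} := by
  intro G _ n e he h0
  classical
  refine ⟨(Finset.univ.biUnion fun i => (e i i).coeff.support).erase 1,
    Finset.notMem_erase _ _, ?_⟩
  intro V hV g
  by_contra hcon
  push Not at hcon
  have h1 : ∀ i, (e i i).coeff 1 = 0 := by
    intro i
    refine IC3.coeff_one e V hV g i fun v hv hne => ?_
    by_contra h3
    exact hcon v hv (Finset.mem_erase.2 ⟨hne, Finset.mem_biUnion.2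
      ⟨i, Finset.mem_univ _, Finsupp.mem_support_iff.2 h3⟩⟩)
  have h4 := tr_pos e he h0
  unfold tr at h4
  rw [Finset.sum_eq_zero (fun i _ => h1 i)] at h4
  exact lt_irrefl _ h4

end Pool.MP_79a731_al.CS
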