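import Pool.Agent.Work.MP_79a731_al.CS.Stmts

/-!
MP_79a731_al, block CS, item C4: a subgroup all of whose coset sums vanish is infinite.
-/

set_option autoImplicit false

namespace Pool.MP_79a731_al.CS

open Function Pool.MP_79a731_al.H5

noncomputable section

universe u

namespace IC4

open Classical in
/-- the sum over the conjugate of `V` -/
theorem sum_conj {G : Type u} [Group G] {n : ℕ} (e : Mt G n) (V : Subgroup G) (hC : Cs V e)
    (W : Finset G) (hW : ∀ g, g ∈ W ↔ g ∈ V) (z : G) :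
    ∑ v ∈ W, (dg e).coeff (z⁻¹ * v * z) = 0 := by
  have h1 : cs V z (MonoidAlgebra.single z 1 * dg e) = 0 := by
    unfold dg
    rw [Finset.mul_sum, map_sum]
    exact Finset.sum_eq_zero fun i _ => hC i i z z
  rw [cs_filter] at h1
  rw [← h1]
  have hinj : ∀ a ∈ W, ∀ b ∈ W, z⁻¹ * a * z = z⁻¹ * b * z → a = b := by
    intro a _ b _ hab
    exact mul_left_cancel (mul_right_cancel hab)
  rw [← Finset.sum_image (f := fun k => (dg e).coeff k) (g := fun v => z⁻¹ * v * z) hinj]
  symm
  apply Finset.sum_subset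
  · intro k hk
    rw [Finset.mem_filter] at hk
    rw [Finset.mem_image]
    refine ⟨z * k * z⁻¹, (hW _).2 hk.2, ?_⟩
    group
  · intro k hk hk'
    rw [Finset.mem_image] at hk
    obtain ⟨v, hv, rfl⟩ := hk
    by_contra hne
    apply hk'
    rw [Finset.mem_filter]
    refine ⟨Finsupp.mem_support_iff.2 hne, ?_⟩
    have : z * (z⁻¹ * v * z) * z⁻¹ = v := by group
    rw [this]
    exact (hW v).1 hv

/-- the class sums at the torsion elements vanish -/
theorem class_zero {G : Type u} [Group G] {n : ℕ} (e : Mt G n) (he : e * e = e) (v : G)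
    (hv : v ≠ 1) {m : ℕ} (hm : m ≠ 0) (h : v ^ m = 1) :
    (Finsupp.mapDomain ConjClasses.mk (dg e).coeff) (ConjClasses.mk v) = 0 := by
  have h1 : hs e = cc (dg e) := by
    rw [hs_apply, dg, map_sum]
  by_contra hne
  have h2 : ConjClasses.mk v ∈ XX e := by
    rw [mem_XX, h1, cc_apply]
    exact hne
  exact hv (eq_one_of_pow he h2 hm h)

theorem tr_dg {G : Type u} [Group G] {n : ℕ} (e : Mt G n) : tr e = (dg e).coeff 1 := by
  unfold tr dg
  rw [MonoidAlgebra.coeff_sum, Finsupp.finsetSum_apply]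

/-- centralizers of conjugates -/
theorem centralizer_conj {G : Type u} [Group G] (v w x : G) (h : x⁻¹ * v * x = w) :
    Subgroup.centralizer {w} = (Subgroup.centralizer {v}).comap (MulAut.conj x).toMonoidHom := by
  ext m
  rw [Subgroup.mem_comap, Subgroup.mem_centralizer_singleton_iff,
    Subgroup.mem_centralizer_singleton_iff]
  have e1 : (MulAut.conj x).toMonoidHom m = x * m * x⁻¹ := rfl
  rw [e1, ← h]
  constructor
  · intro h1
    have h2 : x * m * x⁻¹ * v = x * (m * (x⁻¹ * v * x)) * x⁻¹ := by group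
    rw [h2, h1]
    group
  · intro h1
    have h2 : m * (x⁻¹ * v * x) = x⁻¹ * (x * m * x⁻¹ * v) * x := by group
    rw [h2, h1]
    group

theorem mem_cent {G : Type u} [Group G] (v x z : G) (h : x⁻¹ * v * x = z⁻¹ * v * z) :
    x⁻¹ * z ∈ Subgroup.centralizer {z⁻¹ * v * z} := by
  rw [Subgroup.mem_centralizer_singleton_iff]
  have h1 : x⁻¹ * z * (z⁻¹ * v * z) = x⁻¹ * v * x * (x⁻¹ * z) := by group
  rw [h1, h]

end IC4

open IC4 in
open Classical in
/-- Item C4. -/
theorem pr_C4 (hC4a : StC4a.{u}) (hC4b : StC4b.{u}) : StC4.{u} := by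
  intro G _ n e he h0 V hC
  by_contra hinf
  have hfin : Finite V := not_infinite_iff_finite.1 hinf
  have hfinS : (V : Set G).Finite := hfin
  set W : Finset G := hfinS.toFinset with hWdef
  have hW : ∀ g, g ∈ W ↔ g ∈ V := fun g => hfinS.mem_toFinset
  set τ : G →₀ ℤ := (dg e).coeff with hτ
  set V1 : Finset G := W.filter fun v => v ≠ 1 ∧ (Subgroup.centralizer {v}).FiniteIndex with hV1
  set V2 : Finset G := W.filter fun v => v ≠ 1 ∧ ¬ (Subgroup.centralizer {v}).FiniteIndex with hV2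
  have hclass : ∀ v ∈ W, v ≠ 1 → (Finsupp.mapDomain ConjClasses.mk τ) (ConjClasses.mk v) = 0 := by
    intro v hv hv1
    refine class_zero e he v hv1 (m := Nat.card V) Nat.card_pos.ne' ?_
    have h1 : (⟨v, (hW v).1 hv⟩ : V) ^ Nat.card V = 1 := pow_card_eq_one'
    have h2 : (((⟨v, (hW v).1 hv⟩ : V) ^ Nat.card V : V) : G) = ((1 : V) : G) :=
      congrArg (Subtype.val : V → G) h1
    rw [Subgroup.coe_pow] at h2
    exact h2
  -- the normal subgroup
  have hI : (⨅ v : V1, Subgroup.centralizer {(v : G)}).FiniteIndex :=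
    Subgroup.finiteIndex_iInf fun v => (Finset.mem_filter.1 v.2).2.2
  set N : Subgroup G := (⨅ v : V1, Subgroup.centralizer {(v : G)}).normalCore with hN
  have hNfi : N.FiniteIndex := inferInstance
  have hNn : N.Normal := Subgroup.normalCore_normal _
  have hcent : ∀ v ∈ V1, ∀ m ∈ N, m * v = v * m := by
    intro v hv m hm
    have h1 : m ∈ ⨅ v : V1, Subgroup.centralizer {(v : G)} := Subgroup.normalCore_le _ hm
    have h2 := Subgroup.mem_iInf.1 h1 ⟨v, hv⟩
    exact Subgroup.mem_centralizer_singleton_iff.1 h2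
  have hfq : Fintype (G ⧸ N) := Fintype.ofFinite _
  -- the cosets
  set s : Finset (G × G) := (V2 ×ˢ τ.support).filter fun i => ∃ x : G, x⁻¹ * i.1 * x = i.2 with hs
  set x : G × G → G := fun i => if h : ∃ x : G, x⁻¹ * i.1 * x = i.2 then h.choose else 1 with hx
  have hxs : ∀ i ∈ s, (x i)⁻¹ * i.1 * x i = i.2 := by
    intro i hi
    have h1 := (Finset.mem_filter.1 hi).2
    rw [hx]
    simp only [dif_pos h1]
    exact h1.choose_spec
  have hH : ∀ i ∈ s, ¬ (Subgroup.centralizer {i.2}).FiniteIndex := by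
    intro i hi hfi
    have h1 := Finset.mem_product.1 (Finset.mem_filter.1 hi).1
    have h2 := (Finset.mem_filter.1 h1.1).2.2
    apply h2
    rw [centralizer_conj i.1 i.2 (x i) (hxs i hi)] at hfi
    have h3 := Subgroup.index_comap_of_surjective (Subgroup.centralizer {i.1})
      (f := (MulAut.conj (x i)).toMonoidHom) (MulAut.conj (x i)).surjective
    refine ⟨?_⟩
    rw [← h3]
    exact hfi.index_ne_zero
  have hr : ∀ q : G ⧸ N, ∃ z : G, ((z : G) : G ⧸ N) = q ∧ ∀ v ∈ V2, τ (z⁻¹ * v * z) = 0 := by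
    intro q
    obtain ⟨z, hz1, hz2⟩ := hC4a G N (G × G) s x (fun i => Subgroup.centralizer {i.2}) hH q.out
    refine ⟨z, ?_, ?_⟩
    · rw [← QuotientGroup.eq.2 hz1]
      exact QuotientGroup.out_eq' q
    · intro v hv
      by_contra hne
      have hmem : (v, z⁻¹ * v * z) ∈ s := by
        rw [hs, Finset.mem_filter, Finset.mem_product]
        exact ⟨⟨hv, Finsupp.mem_support_iff.2 hne⟩, ⟨z, rfl⟩⟩
      apply hz2 _ hmem
      exact mem_cent v (x (v, z⁻¹ * v * z)) z (hxs _ hmem)
  choose r hr1 hr2 using hr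
  -- the sum over each coset
  have hsum : ∀ q : G ⧸ N, τ 1 + ∑ v ∈ V1, τ ((r q)⁻¹ * v * r q) = 0 := by
    intro q
    have h1 := sum_conj e V hC W hW (r q)
    have h2 : ∑ v ∈ W, τ ((r q)⁻¹ * v * r q) =
        τ 1 + ∑ v ∈ V1, τ ((r q)⁻¹ * v * r q) + ∑ v ∈ V2, τ ((r q)⁻¹ * v * r q) := by
      have h1W : (1 : G) ∈ W := (hW 1).2 V.one_mem
      rw [← Finset.add_sum_erase W _ h1W]
      have e1 : (r q)⁻¹ * 1 * r q = 1 := by group
      rw [e1, add_assoc]
      congr 1
      rw [hV1, hV2, ← Finset.sum_filter_add_sum_filter_not (W.erase 1)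
        (fun v => (Subgroup.centralizer {v}).FiniteIndex)]
      congr 1
      · apply Finset.sum_congr _ fun _ _ => rfl
        ext v
        simp only [Finset.mem_filter, Finset.mem_erase]
        tauto
      · apply Finset.sum_congr _ fun _ _ => rfl
        ext v
        simp only [Finset.mem_filter, Finset.mem_erase]
        tauto
    have h3 : ∑ v ∈ V2, τ ((r q)⁻¹ * v * r q) = 0 := Finset.sum_eq_zero fun v hv => hr2 q v hv
    rw [h3, add_zero] at h2
    rw [← h2]
    exact h1
  have htot : (Fintype.card (G ⧸ N) : ℤ) * τ 1 = 0 := by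
    have h1 : ∑ q : G ⧸ N, (τ 1 + ∑ v ∈ V1, τ ((r q)⁻¹ * v * r q)) = 0 :=
      Finset.sum_eq_zero fun q _ => hsum q
    rw [Finset.sum_add_distrib, Finset.sum_comm] at h1
    have h2 : ∑ v ∈ V1, ∑ q : G ⧸ N, τ ((r q)⁻¹ * v * r q) = 0 := by
      apply Finset.sum_eq_zero
      intro v hv
      have h3 := Finset.mem_filter.1 hv
      exact hC4b G τ v (hclass v h3.1 h3.2.1) N (hcent v hv) r hr1
    rw [h2, add_zero, Finset.sum_const, Finset.card_univ, nsmul_eq_mul] at h1
    exact_mod_cast h1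
  have hcard : (Fintype.card (G ⧸ N) : ℤ) ≠ 0 := by
    exact_mod_cast Fintype.card_ne_zero
  have hτ1 : τ 1 = 0 := (mul_eq_zero.1 htot).resolve_left hcard
  have htr := tr_pos e he h0
  rw [tr_dg, ← hτ, hτ1] at htr
  exact lt_irrefl _ htr

end

end Pool.MP_79a731_al.CS
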