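import Pool.Agent.Work.MP_79a731_al.CS.Stmts

/-!
Block CS, item C4a: a coset of a subgroup of finite index is not covered by finitely many cosets of
subgroups of infinite index (B. H. Neumann).
-/

set_option autoImplicit false

namespace Pool.MP_79a731_al.CS

open Function Pool.MP_79a731_al.H5

open scoped Pointwise

noncomputable section

universe u

/-- item C4a -/
theorem pr_C4a : StC4a.{u} := by
  intro G _ N hN ι s x H hH y
  classical
  by_contra hcon
  have hcon' : ∀ z : G, y⁻¹ * z ∈ N → ∃ i ∈ s, (x i)⁻¹ * z ∈ H i := by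
    intro z hz
    by_contra h
    exact hcon ⟨z, hz, fun i hi hzi => h ⟨i, hi, hzi⟩⟩
  haveI : Finite (G ⧸ N) := Subgroup.finite_quotient_of_finiteIndex
  haveI : Fintype (G ⧸ N) := Fintype.ofFinite _
  let S : Finset ((G ⧸ N) ⊕ ι) := ((Finset.univ.erase (y : G ⧸ N)).disjSum s)
  let K : (G ⧸ N) ⊕ ι → Subgroup G := Sum.elim (fun _ => N) H
  let g : (G ⧸ N) ⊕ ι → G := Sum.elim (fun q => q.out) x
  have hcov : ⋃ k ∈ S, g k • (K k : Set G) = Set.univ := by
    refine Set.eq_univ_of_forall fun z => ?_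
    rw [Set.mem_iUnion₂]
    by_cases hz : (z : G ⧸ N) = (y : G ⧸ N)
    · have h1 : y⁻¹ * z ∈ N := QuotientGroup.eq.1 hz.symm
      obtain ⟨i, hi, hzi⟩ := hcon' z h1
      exact ⟨Sum.inr i, Finset.inr_mem_disjSum.2 hi, (mem_leftCoset_iff _).2 hzi⟩
    · refine ⟨Sum.inl (z : G ⧸ N), Finset.inl_mem_disjSum.2
        (Finset.mem_erase.2 ⟨hz, Finset.mem_univ _⟩), (mem_leftCoset_iff _).2 ?_⟩
      exact QuotientGroup.eq.1 (QuotientGroup.out_eq' (z : G ⧸ N))
  have h := Subgroup.leftCoset_cover_filter_FiniteIndex hcov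
  have hy : y ∈ ⋃ k ∈ S.filter (fun i => (K i).FiniteIndex), g k • (K k : Set G) := by
    rw [h]
    exact Set.mem_univ y
  rw [Set.mem_iUnion₂] at hy
  obtain ⟨k, hk, hyk⟩ := hy
  rw [Finset.mem_filter] at hk
  rcases k with q | i
  · have hq := Finset.inl_mem_disjSum.1 hk.1
    rw [Finset.mem_erase] at hq
    have h1 : (q.out : G)⁻¹ * y ∈ N := (mem_leftCoset_iff _).1 hyk
    have h2 : ((q.out : G) : G ⧸ N) = (y : G ⧸ N) := QuotientGroup.eq.2 h1
    rw [QuotientGroup.out_eq'] at h2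
    exact hq.1 h2
  · have hi := Finset.inr_mem_disjSum.1 hk.1
    exact hH i hi hk.2

end

end Pool.MP_79a731_al.CS
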