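import Pool.Agent.Work.MP_79a731_al.CS.Stmts

/-!
# MP_79a731_al, block CS, item C4b: averaging over a conjugacy class
-/

set_option autoImplicit false

universe u

namespace Pool.MP_79a731_al.CS

namespace IC4b

section

variable {G : Type u} [Group G] {v : G} {N : Subgroup G} [N.Normal] {r : G ⧸ N → G}

/-- the conjugate by `z` depends only on the class of `z` -/
theorem conj_eq (hN : ∀ m ∈ N, m * v = v * m) (hr : ∀ q, ((r q : G) : G ⧸ N) = q) (z : G) :
    z⁻¹ * v * z = (r (z : G ⧸ N))⁻¹ * v * r (z : G ⧸ N) := by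
  set y := r (z : G ⧸ N) with hy
  have h1 : y⁻¹ * z ∈ N := QuotientGroup.eq.mp (hr _)
  have h2 : z * y⁻¹ ∈ N := by
    have h3 := (inferInstance : N.Normal).conj_mem _ h1 y
    have h4 : y * (y⁻¹ * z) * y⁻¹ = z * y⁻¹ := by group
    rwa [h4] at h3
  have h5 := hN _ h2
  have h6 : z⁻¹ * v * z = z⁻¹ * (v * (z * y⁻¹)) * y := by group
  rw [h6, ← h5]
  group

open Classical in
/-- the number of times that the value `w` is taken -/
noncomputable def SS (N : Subgroup G) [N.Normal] [Fintype (G ⧸ N)] (r : G ⧸ N → G) (v w : G) : ℤ :=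
  ∑ q : G ⧸ N, if (r q)⁻¹ * v * r q = w then 1 else 0

theorem SS_conj [Fintype (G ⧸ N)] (hN : ∀ m ∈ N, m * v = v * m)
    (hr : ∀ q, ((r q : G) : G ⧸ N) = q) (t w : G) : SS N r v (t⁻¹ * w * t) = SS N r v w := by
  classical
  unfold SS
  rw [← Equiv.sum_comp (Equiv.mulRight (t : G ⧸ N))]
  refine Finset.sum_congr rfl fun q _ => ?_
  have h1 : (r (Equiv.mulRight (t : G ⧸ N) q))⁻¹ * v * r (Equiv.mulRight (t : G ⧸ N) q) =
      t⁻¹ * ((r q)⁻¹ * v * r q) * t := by
    have h2 : Equiv.mulRight (t : G ⧸ N) q = ((r q * t : G) : G ⧸ N) := by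
      rw [Equiv.coe_mulRight, QuotientGroup.mk_mul, hr]
    rw [h2, ← conj_eq hN hr (r q * t)]
    group
  rw [h1]
  by_cases h : (r q)⁻¹ * v * r q = w
  · rw [if_pos h, if_pos (by rw [h])]
  · rw [if_neg h, if_neg]
    intro h3
    apply h
    have h4 := congrArg (fun x => t * x * t⁻¹) h3
    simpa [mul_assoc] using h4

end

end IC4b

open IC4b in
theorem pr_C4b : StC4b.{u} := by
  classical
  intro G _ τ v hc N _ _ hN r hr
  have key : ∀ σ : G →₀ ℤ, ∑ q : G ⧸ N, σ ((r q)⁻¹ * v * r q) =
      (Finsupp.mapDomain ConjClasses.mk σ) (ConjClasses.mk v) * SS N r v v := by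
    intro σ
    induction σ using Finsupp.induction_linear with
    | zero => simp
    | add f g hf hg =>
      rw [Finsupp.mapDomain_add, Finsupp.add_apply, add_mul, ← hf, ← hg, ← Finset.sum_add_distrib]
      rfl
    | single w a =>
      rw [Finsupp.mapDomain_single, Finsupp.single_apply]
      have h1 : ∑ q : G ⧸ N, (Finsupp.single w a) ((r q)⁻¹ * v * r q) = a * SS N r v w := by
        unfold SS
        rw [Finset.mul_sum]
        refine Finset.sum_congr rfl fun q _ => ?_
        rw [Finsupp.single_apply]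
        by_cases h : w = (r q)⁻¹ * v * r q
        · rw [if_pos h, if_pos h.symm, mul_one]
        · rw [if_neg h, if_neg (fun h' => h h'.symm), mul_zero]
      rw [h1]
      by_cases h : (ConjClasses.mk w : ConjClasses G) = ConjClasses.mk v
      · rw [if_pos h]
        congr 1
        rw [ConjClasses.mk_eq_mk_iff_isConj, isConj_iff] at h
        obtain ⟨c, hc'⟩ := h
        have h2 : w = c⁻¹ * v * c := by rw [← hc']; group
        rw [h2, SS_conj hN hr]
      · rw [if_neg h, zero_mul]
        have h3 : SS N r v w = 0 := by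
          unfold SS
          refine Finset.sum_eq_zero fun q _ => ?_
          rw [if_neg]
          intro h4
          apply h
          rw [ConjClasses.mk_eq_mk_iff_isConj, isConj_iff]
          exact ⟨r q, by rw [← h4]; group⟩
        rw [h3, mul_zero]
  rw [key τ, hc, zero_mul]

end Pool.MP_79a731_al.CS
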