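import Pool.Agent.Work.MP_79a731_al.CS.Stmts

/-!
Block CS, item C5: the relative induction.
-/

set_option autoImplicit false

namespace Pool.MP_79a731_al.CS

open Function Pool.MP_79a731_al.H5

noncomputable section

universe u

namespace IC5

variable {G : Type*} [Group G] {n : ℕ} {p : ℕ} [hp : Fact p.Prime]

/-- the relative main induction -/
theorem rel {Φ : Fn G n p →ₗ[ZMod p] Fn G n p} (hΦ : ∀ g f, Φ (tl g f) = tl g (Φ f))
    {M N : Subgroup G} (hN : RelInd p M N) (S : Finset (G × Fin n)) :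
    ∀ (m : ℕ) (K : Subgroup G), M ≤ K → K ≤ N → IP Φ K S →
      Set.ncard {q : (G × Fin n) × (G × Fin n) | q.1 ∈ S ∧ q.2 ∈ S ∧ q.2.2 = q.1.2 ∧
        q.2.1 * q.1.1⁻¹ ∈ K} = m → IP Φ M S := by
  classical
  intro m
  induction m using Nat.strong_induction_on with
  | _ m ih =>
    intro K hMK hK hIP hm
    set R : Subgroup G → Set ((G × Fin n) × (G × Fin n)) := fun K =>
      {q | q.1 ∈ S ∧ q.2 ∈ S ∧ q.2.2 = q.1.2 ∧ q.2.1 * q.1.1⁻¹ ∈ K} with hR
    have hfin : ∀ K, (R K).Finite := by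
      intro K
      refine Set.Finite.subset (S ×ˢ S : Finset _).finite_toSet ?_
      rintro q ⟨h1, h2, _⟩
      exact Finset.mem_coe.mpr (Finset.mem_product.mpr ⟨h1, h2⟩)
    let K' : Subgroup G := M ⊔ Subgroup.closure ((fun q => q.2.1 * q.1.1⁻¹) '' R K)
    have hMK' : M ≤ K' := le_sup_left
    have hcl : Subgroup.closure ((fun q : (G × Fin n) × (G × Fin n) => q.2.1 * q.1.1⁻¹) '' R K) ≤ K' :=
      le_sup_right
    have hK'K : K' ≤ K := by
      refine sup_le hMK ?_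
      rw [Subgroup.closure_le]
      rintro _ ⟨q, hq, rfl⟩
      exact hq.2.2.2
    have hK'fg : FinOver M K' := by
      refine ⟨((hfin K).image fun q => q.2.1 * q.1.1⁻¹).toFinset, ?_⟩
      rw [Set.Finite.coe_toFinset]
    have hIP' : IP Φ K' S := by
      refine hIP.sub hK'K ?_
      intro s hs s' hs' k hk h1
      apply hcl
      apply Subgroup.subset_closure
      refine ⟨(s, s'), ⟨hs, hs', ?_, ?_⟩, ?_⟩
      · rw [h1]
      · change s'.1 * s.1⁻¹ ∈ K
        rw [h1]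
        simpa using hk
      · change s'.1 * s.1⁻¹ = k
        rw [h1]
        simp
    by_cases hbot : K' = M
    · rw [hbot] at hIP'; exact hIP'
    obtain ⟨χ, hχ, hχM, a, ha, ha0⟩ := hN K' (lt_of_le_of_ne hMK' (Ne.symm hbot)) (hK'K.trans hK) hK'fg
    -- the character is nontrivial on a generator
    have hgen : ∃ q ∈ R K, χ (q.2.1 * q.1.1⁻¹) ≠ 0 := by
      by_contra hcon
      push Not at hcon
      have h1 : K' ≤ ker K' χ hχ := by
        refine sup_le (fun x hx => ⟨hMK' hx, hχM x hx⟩) ?_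
        rw [Subgroup.closure_le]
        rintro _ ⟨q, hq, rfl⟩
        exact ⟨hcl (Subgroup.subset_closure ⟨q, hq, rfl⟩), hcon q hq⟩
      exact ha0 (h1 ha).2
    have hlt : (R (ker K' χ hχ)).ncard < m := by
      rw [← hm]
      refine Set.ncard_lt_ncard ?_ (hfin K)
      obtain ⟨q, hq, hq0⟩ := hgen
      refine ⟨fun r hr => ⟨hr.1, hr.2.1, hr.2.2.1, hK'K hr.2.2.2.1⟩, fun hsub => hq0 ?_⟩
      exact (hsub hq).2.2.2.2
    exact ih _ hlt (ker K' χ hχ) (fun x hx => ⟨hMK' hx, hχM x hx⟩) (fun x hx => hK (hK'K hx.1))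
      (hIP'.step hΦ ⟨a, ha, ha0⟩) rfl

end IC5

theorem pr_C5 : StC5.{u} := by
  intro G _ n p _ Φ hΦ M N hMN hrel S hIP
  exact IC5.rel hΦ hrel S _ N hMN le_rfl hIP rfl

end

end Pool.MP_79a731_al.CS
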