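import Pool.Agent.Work.MP_79a731_al.CS.Stmts

/-!
Item C6a of the block CS: functions which are invariant under the subgroup are killed by the
operator of the matrix.
-/

set_option autoImplicit false

namespace Pool.MP_79a731_al.CS

open Function Pool.MP_79a731_al.H5

noncomputable section

universe u

namespace IC6a

variable {G : Type*} [Group G] {n p : ℕ}

/-- a representative of the right coset -/
def rep (V : Subgroup G) (k : G) : G := (Quotient.mk (QuotientGroup.rightRel V) k).out

lemma rep_mem (V : Subgroup G) (k : G) : k * (rep V k)⁻¹ ∈ V := by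
  have h1 : (QuotientGroup.rightRel V) (rep V k) k := Quotient.mk_out (s := QuotientGroup.rightRel V) k
  rwa [QuotientGroup.rightRel_apply] at h1

lemma rep_eq (V : Subgroup G) (k l : G) (h : l * k⁻¹ ∈ V) : rep V k = rep V l := by
  have h1 : Quotient.mk (QuotientGroup.rightRel V) k = Quotient.mk (QuotientGroup.rightRel V) l := by
    apply Quotient.sound
    change (QuotientGroup.rightRel V) k l
    rwa [QuotientGroup.rightRel_apply]
  rw [rep, rep, h1]

lemma rep_iff (V : Subgroup G) (k l : G) : rep V k = rep V l ↔ k * (rep V l)⁻¹ ∈ V := by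
  constructor
  · intro h
    rw [← h]
    exact rep_mem V k
  · intro h
    refine (rep_eq V l k ?_).symm
    have h1 := rep_mem V l
    have h2 : k * l⁻¹ = k * (rep V l)⁻¹ * (l * (rep V l)⁻¹)⁻¹ := by group
    rw [h2]
    exact V.mul_mem h (V.inv_mem h1)

lemma opM_zero [Fact p.Prime] (e : Mt G n) (V : Subgroup G) (hV : Cs V e) (f : Fn G n p) (hf : Inv V f) :
    opM e f = 0 := by
  classical
  funext ⟨g, i⟩
  rw [opM_apply, Pi.zero_apply]
  refine Finset.sum_eq_zero fun j _ => ?_
  rw [RR_apply, Finsupp.sum]
  have h1 : ∀ k : G, f (g * k, j) = f (rep V (g * k), j) := by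
    intro k
    have h2 := hf.apply (rep_mem V (g * k)) (rep V (g * k), j)
    rw [← h2]
    simp
  rw [← Finset.sum_fiberwise_of_maps_to (g := fun k => rep V (g * k))
    (t := (e i j).coeff.support.image fun k => rep V (g * k))
    (fun k hk => Finset.mem_image_of_mem _ hk)]
  refine Finset.sum_eq_zero fun q hq => ?_
  obtain ⟨k0, hk0, rfl⟩ := Finset.mem_image.mp hq
  have h3 : ∑ k ∈ (e i j).coeff.support with g * k * (rep V (g * k0))⁻¹ ∈ V,
      (e i j).coeff k = 0 := by
    rw [← cs_filter]
    exact hV i j g _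
  have h4 : ∀ k ∈ (e i j).coeff.support.filter fun k => rep V (g * k) = rep V (g * k0),
      ((e i j).coeff k : ZMod p) * f (g * k, j) =
        ((e i j).coeff k : ZMod p) * f (rep V (g * k0), j) := by
    intro k hk
    rw [h1 k, (Finset.mem_filter.mp hk).2]
  rw [Finset.sum_congr rfl h4, ← Finset.sum_mul, ← Int.cast_sum]
  have h5 : (e i j).coeff.support.filter (fun k => rep V (g * k) = rep V (g * k0)) =
      (e i j).coeff.support.filter (fun k => g * k * (rep V (g * k0))⁻¹ ∈ V) :=
    Finset.filter_congr fun k _ => rep_iff V (g * k) (g * k0)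
  rw [h5, h3, Int.cast_zero, zero_mul]

end IC6a

theorem pr_C6a : StC6a.{u} := by
  intro G _ n p _ e V hV S l _ h f hf
  have h1 := h f hf
  have h2 : (1 - opM e : Fn G n p →ₗ[ZMod p] Fn G n p) f = f := by
    rw [LinearMap.sub_apply, IC6a.opM_zero e V hV f hf, sub_zero, Module.End.one_apply]
  rw [h2] at h1
  exact h1

end

end Pool.MP_79a731_al.CS
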