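import Pool.Agent.Work.MP_79a731_al.CS.Defs

/-!
Statements of the block CS. Conventions: `e * e = e` is an idempotent matrix over the integral group
ring `ℤG`; `(e i j).coeff k` are its coefficients; `cs L h y` is the sum of the coefficients of `y`
over the right coset `L h`; `Cs L e` says that these sums vanish for all left translates of all
entries of `e`. By `cs_filter` (file Defs) this means: for all `i j g h` the sum of `(e i j).coeff k`
over the `k` in the support with `g k h⁻¹ ∈ L` is zero.
-/

set_option autoImplicit false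

namespace Pool.MP_79a731_al.CS

open Function Pool.MP_79a731_al.H5

noncomputable section

universe u v

/-- C1 (from modules to matrices). PROOF. As in `H5.exists_matrix` (file H5/Mod.lean, copy the
construction): `π : (ℤG)^n → M` surjective, `s` a section, `e i j = s (π (Pi.single i 1)) j`, so
`s (π x) j = ∑ i, x i * e i j`, `e * e = e`, and `e = 0` gives `M = 0`. Let `L` be a subgroup.
(→) Let `Z` be the additive subgroup of all `x : Fin n → ℤG` with `cs L h (x j) = 0` for all `h, j`.
For `v ∈ L`, `y : ℤG`: `cs L h (single v 1 * y) = cs L h y` (linear in `y`; on `single k a` it is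
`cs_single` and `v k h⁻¹ ∈ L ↔ k h⁻¹ ∈ L`), so `s ((single v 1 - 1) • m) ∈ Z`, and by `LPerf L M`
(closure induction, or `AddSubgroup.closure_le` with `Z.comap s`) `s m ∈ Z` for all `m`. Apply it to
`m = single g 1 • π (Pi.single i 1)`: `s m j = single g 1 * e i j`, which is `Cs L e`.
(←) Let `A` be the additive closure. (i) If `y : ℤG` has `cs L h y = 0` for all `h` then
`y • m ∈ A` for all `m`: choose for `k : G` the representative `r k := Quotient.out` of its right
coset (`QuotientGroup.rightRel L`), `k * (r k)⁻¹ ∈ L`, `r` constant on right cosets. By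
`MonoidAlgebra.induction_linear` for every `y`: `y • m - (∑ over y.coeff.support of coeff k •
single (r k) 1 • m) ∈ A`, i.e. `y • m - (y.coeff.sum fun k a => a • (single (r k) 1 • m)) ∈ A` (for
`single k a`: `single k 1 • m - single (r k) 1 • m = (single (k (r k)⁻¹) 1 - 1) • (single (r k) 1 • m)`);
and the sum is zero if all `cs L h y = 0`: group by the value of `r k` (`Finset.sum_fiberwise` or
`Finset.sum_comp`), the sum of the coefficients over a fibre `r k = q` is `cs L q y`
(`k q⁻¹ ∈ L ↔ r k = q` for `q = r k0`). (ii) the elements `y` of (i) form an additive subgroup closed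
under left multiplication by ... not needed: for `x : Fin n → ℤG` the element `y j = ∑ i, x i * e i j`
has all coset sums zero by `Cs L e` (linear in `x i`; `single g a * e i j = a • (single g 1 * e i j)`).
(iii) `m = π x` with `x = s m`; `s m = y` with `y j = ∑ i, x i * e i j` (as `s (π (s m)) = s m`), so
`m = π (s m) = ∑ j, y j • π (Pi.single j 1) ∈ A`. -/
def StC1 : Prop := ∀ (G : Type u) [Group G] (M : Type v) [AddCommGroup M]
    [Module (MonoidAlgebra ℤ G) M], Module.Finite (MonoidAlgebra ℤ G) M →
    Module.Projective (MonoidAlgebra ℤ G) M →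
    ∃ (n : ℕ) (e : Mt G n), e * e = e ∧ (e = 0 → Subsingleton M) ∧
      ∀ L : Subgroup G, LPerf L M ↔ Cs L e

/-- C2 (minimal subgroups). PROOF. Zorn for `(Subgroup G)ᵒᵈ` below `L` (`zorn_le_nonempty₀` in the
order dual). Let `c` be a nonempty chain of subgroups `V` with `Cs V e`; `I = sInf c`. To show
`Cs I e`: fix `i j g h` and let `S` be the support of `e i j` (finite). For `k ∈ S` with
`g k h⁻¹ ∉ I` choose `V_k ∈ c` with `g k h⁻¹ ∉ V_k`; let `V0 ∈ c` be contained in all these finitely
many `V_k` (a finite nonempty subset of a chain has a least element; if there is no such `k` take any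
`V0 ∈ c`). Then for `k ∈ S`: `g k h⁻¹ ∈ V0 ↔ g k h⁻¹ ∈ I`, so by `cs_filter` both sums agree and
`cs I h _ = cs V0 h _ = 0`. -/
def StC2 : Prop := ∀ (G : Type u) [Group G] (n : ℕ) (e : Mt G n) (L : Subgroup G), Cs L e →
    ∃ V : Subgroup G, V ≤ L ∧ Cs V e ∧ ∀ M : Subgroup G, M < V → ¬ Cs M e

/-- C3 (confined). PROOF. `F` = the union over `i` of the supports of `e i i`, with `1` erased. Let
`Cs V e`, `g : G`. By `cs_filter` with `i = j`, and `g⁻¹` in the place of both `g` and `h`: the sum of
`(e i i).coeff k` over the `k ∈ supp (e i i)` with `g⁻¹ k g ∈ V` is zero; sum over `i`. The terms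
`k = 1` contribute `∑ i, (e i i).coeff 1 = tr e > 0` (`H5.tr_pos he h0`; if `1` is not in the support
its coefficient is `0`), so there are `i` and `k ≠ 1` in the support of `e i i` with `g⁻¹ k g ∈ V`.
Take `v = g⁻¹ k g`. -/
def StC3 : Prop := ∀ (G : Type u) [Group G] (n : ℕ) (e : Mt G n), e * e = e → e ≠ 0 →
    ∃ F : Finset G, (1 : G) ∉ F ∧ ∀ V : Subgroup G, Cs V e → ∀ g : G, ∃ v ∈ V, g * v * g⁻¹ ∈ F

/-- C4a (B. H. Neumann). PROOF. Suppose not: every `z ∈ y N` lies in some `x i • (H i)`, `i ∈ s`.
`N` has finitely many left cosets `q ∈ G ⧸ N`; the left cosets `q.out • N` with `q ≠ (y : G ⧸ N)`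
together with the `x i • H i`, `i ∈ s`, cover `G`. By `Subgroup.leftCoset_cover_filter_FiniteIndex`
(Mathlib, GroupTheory/CosetCover) those with a subgroup of finite index already cover `G`, i.e. the
`q.out • N`, `q ≠ y`, cover `G`; but `y` is in none of them. (Index type `Option ..` or a sum type,
`(G ⧸ N) ⊕ ι`, with `Finset.univ.erase`; or first transport `s` to a Finset of `Sum`.) -/
def StC4a : Prop := ∀ (G : Type u) [Group G] (N : Subgroup G) [N.FiniteIndex] (ι : Type u)
    (s : Finset ι) (x : ι → G) (H : ι → Subgroup G), (∀ i ∈ s, ¬ (H i).FiniteIndex) →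
    ∀ y : G, ∃ z : G, y⁻¹ * z ∈ N ∧ ∀ i ∈ s, (x i)⁻¹ * z ∉ H i

/-- C4b (averaging over a class). `hc` says that the sum of the values of `τ` over the conjugacy class
of `v` is zero; `N` centralizes `v`. PROOF. Group the sum by the value `w = (r q)⁻¹ v (r q)`, which
runs over the class `C` of `v` (finite, as `q` ranges over a finite set and every conjugate
`z⁻¹ v z` equals `(r q)⁻¹ v (r q)` for `q = z N`: write `z = r q m`, `m ∈ N`; then
`z⁻¹ v z = m⁻¹ ((r q)⁻¹ v (r q)) m` and `(r q)⁻¹ v (r q)` is centralized by `(r q)⁻¹ N (r q) = N`).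
The number of `q` with a given value `w ∈ C` does not depend on `w`: if `w = t⁻¹ w0 t` then
`q ↦ q t` (right multiplication, well defined on `G ⧸ N` as `N` is normal) is a bijection from the
fibre of `w0` to the fibre of `w`. So the sum is `c * ∑ w ∈ C, τ w`, and `∑ w ∈ C, τ w = 0` is `hc`:
`Finsupp.mapDomain ConjClasses.mk τ (mk v)` is the sum of `τ` over the elements of its support
conjugate to `v`. Alternative without counting fibres: let `Q = G ⧸ N` act on itself;
`S τ := ∑ q, τ ((r q)⁻¹ v (r q))`; both `τ ↦ S τ` and the class sum are additive in `τ`, `S` is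
invariant under replacing `τ` by `τ (t⁻¹ · t)`, so on `single w a` with `w` conjugate to `v` it is
`a * S (single v 1)`, and `0` for `w` not conjugate to `v`; hence
`S τ = (class sum of τ) * S (single v 1)` (`Finsupp.induction_linear`). -/
def StC4b : Prop := ∀ (G : Type u) [Group G] (τ : G →₀ ℤ) (v : G),
    (Finsupp.mapDomain ConjClasses.mk τ) (ConjClasses.mk v) = 0 →
    ∀ (N : Subgroup G) [N.Normal] [Fintype (G ⧸ N)], (∀ m ∈ N, m * v = v * m) →
    ∀ (r : G ⧸ N → G), (∀ q, ((r q : G) : G ⧸ N) = q) →
      ∑ q : G ⧸ N, τ ((r q)⁻¹ * v * r q) = 0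

/-- C4 (`V` is infinite). Hypotheses StC4a, StC4b allowed. PROOF. Suppose `V` is finite. Let
`τ = (dg e).coeff` (`dg e = ∑ i, e i i`), a finitely supported function. By `cs_filter` with `i = j`
and `g = h = z`, summed over `i`: for all `z : G`, `∑ v ∈ V, τ (z⁻¹ v z) = 0` (additivity of `cs`:
`∑ i, cs V z (single z 1 * e i i) = cs V z (single z 1 * dg e)`, `= ∑ k ∈ supp τ with z k z⁻¹ ∈ V, τ k`
and substitute `k = z⁻¹ v z`, a bijection between `V` and `z⁻¹ V z`, terms outside of the support
being `0`). For `v ∈ V`, `v ≠ 1`: `v ^ m = 1` for some `m ≠ 0`, so by `H5.eq_one_of_pow` the class of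
`v` is not in `H5.XX e`, i.e. `hs e (mk v) = 0`, i.e. `mapDomain mk τ (mk v) = 0` (`hs e = cc (dg e)`,
additivity). Let `V1` be the set of the `v ∈ V`, `v ≠ 1`, whose centralizer
`Subgroup.centralizer {v}` has finite index, `V2` the rest of `V` without `1`. Let `N` be the normal
core of the intersection of the centralizers of the elements of `V1` (finite index, normal,
centralizes `V1`). Consider the left cosets `x • Subgroup.centralizer {w}` for `v ∈ V2` and `w` in the
support of `τ`, `x` chosen with `x⁻¹ v x = w` if there is such an `x` (`{z | z⁻¹ v z = w}` is then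
exactly `x C(w)`, and `C(w) = x⁻¹ C(v) x` has infinite index). By StC4a for every `q : G ⧸ N` there is
`r q` in the coset `q` outside all these finitely many left cosets, i.e. with
`τ ((r q)⁻¹ v (r q)) = 0` for all `v ∈ V2`. So for every `q`:
`τ 1 + ∑ v ∈ V1, τ ((r q)⁻¹ v (r q)) = 0`. Sum over `q` and use StC4b for every `v ∈ V1`:
`(number of q) * τ 1 = 0`, so `τ 1 = tr e = 0`, contradicting `H5.tr_pos`. -/
def StC4 : Prop := ∀ (G : Type u) [Group G] (n : ℕ) (e : Mt G n), e * e = e → e ≠ 0 →
    ∀ V : Subgroup G, Cs V e → Infinite V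

/-- C5 (the relative induction). PROOF. Copy of `H5.IP.bot` (file H5/Pind.lean) with `⊥` replaced by
`M`: induction on the number of pairs `q ∈ S × S` with `q.2.2 = q.1.2`, `q.2.1 * q.1.1⁻¹ ∈ K`, for the
subgroups `K` with `M ≤ K ≤ N` and `IP Φ K S`. Let `K' = M ⊔ closure {q.2.1 * q.1.1⁻¹}` over these
pairs; `K' ≤ K`, and `IP Φ K' S` by `IP.sub`. If `K' = M` we are done. Otherwise `M < K' ≤ N` and
`FinOver M K'`, so there is `χ` on `K'`, trivial on `M`, nontrivial on `K'`; it is nontrivial on one of
the generators `q.2.1 * q.1.1⁻¹` (else `K' ≤ ker K' χ`). `ker K' χ hχ ⊇ M`, `IP Φ (ker K' χ hχ) S` by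
`IP.step`, and the number of pairs is strictly smaller. -/
def StC5 : Prop := ∀ (G : Type u) [Group G] (n p : ℕ) [Fact p.Prime]
    (Φ : Fn G n p →ₗ[ZMod p] Fn G n p), (∀ g f, Φ (tl g f) = tl g (Φ f)) →
    ∀ (M N : Subgroup G), M ≤ N → RelInd p M N → ∀ S : Finset (G × Fin n),
      IP Φ N (S : Set (G × Fin n)) → IP Φ M (S : Set (G × Fin n))

/-- C6a. PROOF. For `f` invariant under `V` (`Inv V f`) we have `opM e f = 0`: by
`opM_apply`/`RR_apply` the value at `(g, i)` is `∑ j, ∑ k ∈ supp (e i j), coeff k * f (g k, j)`;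
`f (g k, j)` depends only on the right coset `V g k`; group the inner sum by right cosets: it is the
sum over the right cosets `V h` met by the `g k` of `(∑ k with g k h⁻¹ ∈ V, coeff k) * f (h, j)`,
and the bracket is `cs V h (single g 1 * e i j) = 0`. (Same grouping as in C1 (i).) Hence with
`Φ = 1 - opM e`, `Φ f = f` for such `f`, and `IP` is trivial: `l (Φ f) = l f`. -/
def StC6a : Prop := ∀ (G : Type u) [Group G] (n p : ℕ) [Fact p.Prime] (e : Mt G n) (V : Subgroup G),
    Cs V e → ∀ S : Set (G × Fin n),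
      IP (1 - opM e : Fn G n p →ₗ[ZMod p] Fn G n p) V S

/-- C6b. PROOF. (1) `opM e f = 0` for every `f` with `Inv M f`: let `(g, i)` be a point,
`S = {(g k, j)}`, `k ∈ supp (e i j)`, `j : Fin n` (finite), `l = ∑ j, ∑ k, coeff k • evf (g k, j) ∈ LL S`,
`l f = opM e f (g, i)` for all `f` (as `key` in the proof of `H5.eq_zero_of_lpi`);
`l (Φ f) = opM e (f - opM e f) (g, i) = 0` since `e * e = e` (`opM_mul`); so `IP` gives `l f = 0` for all
`M`-invariant `f`. (2) For `j, h` let `F (g, i) = cs M h (single g 1 * e i j) : ℤ`. Taking for `f` the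
indicator function (values in `ZMod p`) of `{(m h, j) | m ∈ M}`, which is `M`-invariant, (1) gives
`p ∣ F (g, i)` for all `g, i` (use `cs_filter`). (3) Integral version of `opM`: for
`f : G × Fin n → ℤ` put `(opZ f) (g, i) = ∑ j, (e i j).coeff.sum fun k a => a * f (g k, j)`; then
`opZ F = F` (from `e * e = e`: `cs M h (single g 1 * e i j) = ∑ l, cs M h (single g 1 * e i l * e l j)`,
and `cs M h (single g 1 * x * y) = x.coeff.sum fun k a => a * cs M h (single (g k) 1 * y)`, linear in
`x`), and `F` is `M`-invariant: `F (m g, i) = F (g, i)` for `m ∈ M`. (4) So for every `t : ℕ`,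
`p ^ t ∣ F`: induction; if `F = p ^ t F1` (pointwise, `F1` integer valued) then `F1` is `M`-invariant
and `opZ F1 = F1`; reduce mod `p`: `F1` mod `p` is an `M`-invariant function in `Fn G n p`, and
`opM e` of it is `F1` mod `p`, so by (1) it is zero, `p ∣ F1`. Hence `F = 0`, i.e. `Cs M e`. -/
def StC6b : Prop := ∀ (G : Type u) [Group G] (n p : ℕ) [Fact p.Prime] (e : Mt G n) (M : Subgroup G),
    e * e = e → (∀ S : Finset (G × Fin n),
      IP (1 - opM e : Fn G n p →ₗ[ZMod p] Fn G n p) M (S : Set (G × Fin n))) → Cs M e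

/-- C6 (descent along relatively p-indicable pairs). Hypotheses StC5, StC6a, StC6b allowed. PROOF.
`Φ = 1 - opM e` commutes with all `tl g` (`opM_tl`); `IP Φ V S` for all `S` by StC6a, `IP Φ M S` for
all finite `S` by StC5, `Cs M e` by StC6b. -/
def StC6 : Prop := ∀ (G : Type u) [Group G] (n : ℕ) (e : Mt G n) (V M : Subgroup G) (p : ℕ),
    p.Prime → e * e = e → Cs V e → M ≤ V → RelInd p M V → Cs M e

/-- C7a. PROOF. Let `B = (p : ℤ) • ⊤` as a submodule of `A` (or the range of multiplication by `p`).
If `B ≠ ⊤` then `A ⧸ B` is a nonzero module over `ZMod p` (every element is killed by `p`: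
`AddCommGroup.zmodModule`), a nonzero vector space, has a nonzero functional (a basis, or
`Module.exists_dual_forall_apply_eq_zero_iff`, `exists_dual_map_eq_bot_of_lt_top`), and
`A → A ⧸ B → ZMod p` is a nonzero homomorphism, a contradiction. So `p A = A`, and by Nakayama
(`Submodule.exists_sub_one_mem_and_smul_eq_zero_of_fg_of_le_smul` with the ideal `(p)` of `ℤ`) there is
`r ≡ 1` mod `p`, `r A = 0`; take `r.natAbs`. -/
def StC7a : Prop := ∀ (A : Type u) [AddCommGroup A] [Module.Finite ℤ A] (p : ℕ), p.Prime →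
    (∀ χ : A →+ ZMod p, χ = 0) → ∃ r : ℕ, r.Coprime p ∧ ∀ a : A, r • a = 0

/-- C7 (perfectness). Hypothesis StC7a allowed. PROOF. Let `W = ⁅V, V⁆ ≤ V`. For a prime `p` let
`M_p = {a ∈ V | ∃ m : ℕ, m.Coprime p ∧ a ^ m ∈ W}`; it is a subgroup containing `W` (modulo `W` the
elements of `V` commute; compare `T` in `H5.structure_mat`, file H5/Core.lean; `(a b) ^ (m k)` is
congruent to `a ^ (m k) b ^ (m k)` mod `W`). Suppose `M_p < V` for some prime `p`. By hypothesis there
is `B` with `M_p < B ≤ V`, `B = M_p ⊔ closure F`, without a nontrivial character of order `p` trivial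
on `M_p`. `M_p` is normal in `B` (as `W ≤ M_p` and `[V, V] ≤ W`), `B ⧸ M_p` (i.e.
`B ⧸ M_p.subgroupOf B`) is abelian, generated by the images of `F`, and has no nonzero homomorphism to
`ZMod p` (compose with `B → B ⧸ M_p` and extend by `0` to `G`). By StC7a (additive notation) there is
`r` prime to `p` with `b ^ r ∈ M_p` for all `b ∈ B`; then `(b ^ r) ^ m ∈ W` with `m` prime to `p`, so
`b ∈ M_p`: `B ≤ M_p`, a contradiction. So `M_p = V` for all primes `p`: for `a ∈ V` the set of
`m : ℕ` with `a ^ m ∈ W` contains for every prime `p` a number prime to `p`; let `d` be the order of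
`a` modulo `W` (`orderOf (a : G ⧸ W)`, positive as some `m ≥ 1` works: `m` prime to `2` is not `0`; note
`W` need not be normal in `G`: use the least positive `d` with `a ^ d ∈ W`, it divides every `m` with
`a ^ m ∈ W`, e.g. via `orderOf` in `V ⧸ ⁅⊤, ⊤⁆` or `Int`/`Nat.find` and division with remainder); `d`
is prime to every prime, so `d = 1` and `a ∈ W`. -/
def StC7 : Prop := ∀ (G : Type u) [Group G] (V : Subgroup G),
    (∀ M : Subgroup G, M < V → ∀ p : ℕ, p.Prime → ¬ RelInd p M V) → ⁅V, V⁆ = V

/-- C8 (no relative indicability in terms of homomorphisms). PROOF. Unfold: `¬ RelInd p M N` gives `B`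
with `M < B ≤ N`, `FinOver M B` and no `χ : G → ZMod p` as in `RelInd`. Given `χ : B →* Multiplicative
(ZMod p)` trivial on `M` extend it by `0` to `G` (as in `H5.pperf_of_not_lpi`, file H5/Core.lean). -/
def StC8 : Prop := ∀ (G : Type u) [Group G] (p : ℕ) (M N : Subgroup G), ¬ RelInd p M N →
    ∃ B : Subgroup G, M < B ∧ B ≤ N ∧ (∃ F : Finset G, B = M ⊔ Subgroup.closure (F : Set G)) ∧
      ∀ χ : B →* Multiplicative (ZMod p), (∀ b : B, (b : G) ∈ M → χ b = 1) → χ = 1

end

end Pool.MP_79a731_al.CS
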