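import Mathlib
import Pool.Agent.Work.MP_79a731_al.CS.Stmts

/-!
Item C6b of the block CS: from the injectivity property to the vanishing of the coset sums.
-/

set_option autoImplicit false

namespace Pool.MP_79a731_al.CS

open Function Pool.MP_79a731_al.H5

noncomputable section

universe u

namespace IC6b

variable {G : Type u} [Group G] {n : ℕ}

/-- the integral operator -/
def opZ (e : Mt G n) (F : G × Fin n → ℤ) (y : G × Fin n) : ℤ :=
  ∑ j, (e y.2 j).coeff.sum fun k a => a * F (y.1 * k, j)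

lemma opM_cast {p : ℕ} [Fact p.Prime] (e : Mt G n) (F : G × Fin n → ℤ) (y : G × Fin n) :
    opM e (fun y => ((F y : ℤ) : ZMod p)) y = ((opZ e F y : ℤ) : ZMod p) := by
  obtain ⟨g, i⟩ := y
  rw [opM_apply, opZ, Int.cast_sum]
  refine Finset.sum_congr rfl fun j _ => ?_
  rw [RR_apply, Finsupp.sum, Finsupp.sum, Int.cast_sum]
  refine Finset.sum_congr rfl fun k _ => ?_
  rw [Int.cast_mul]

lemma opM_zero {p : ℕ} [Fact p.Prime] (e : Mt G n) (M : Subgroup G) (he : e * e = e)
    (h : ∀ S : Finset (G × Fin n),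
      IP (1 - opM e : Fn G n p →ₗ[ZMod p] Fn G n p) M (S : Set (G × Fin n)))
    (f : Fn G n p) (hf : Inv M f) (y : G × Fin n) : opM e f y = 0 := by
  classical
  obtain ⟨g, i⟩ := y
  let S : Finset (G × Fin n) := Finset.univ.biUnion fun j =>
    (e i j).coeff.support.image fun k => (g * k, j)
  have hS : ∀ j k, k ∈ (e i j).coeff.support → (g * k, j) ∈ S := by
    intro j k hk
    rw [Finset.mem_biUnion]
    exact ⟨j, Finset.mem_univ _, Finset.mem_image_of_mem _ hk⟩
  let l : Fn G n p →ₗ[ZMod p] ZMod p :=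
    ∑ j, ∑ k ∈ (e i j).coeff.support, ((e i j).coeff k : ZMod p) • evf (g * k, j)
  have hl : l ∈ LL (S : Set (G × Fin n)) :=
    Submodule.sum_mem _ fun j _ => Submodule.sum_mem _ fun k hk =>
      Submodule.smul_mem _ _ (Submodule.subset_span ⟨_, hS j k hk, rfl⟩)
  have hlf : ∀ f, l f = opM e f (g, i) := by
    intro f
    rw [opM_apply]
    simp only [l, LinearMap.sum_apply, LinearMap.smul_apply, evf_apply, smul_eq_mul]
    refine Finset.sum_congr rfl fun j _ => ?_
    rw [RR_apply]
    rfl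
  rw [← hlf]
  refine h S l hl (fun f' _ => ?_) f hf
  have h1 : (1 - opM e : Fn G n p →ₗ[ZMod p] Fn G n p) f' = f' - opM e f' := rfl
  rw [hlf, h1, map_sub, ← opM_mul, he, sub_self]
  rfl

lemma cs_mul (M : Subgroup G) (g h : G) (x y : MonoidAlgebra ℤ G) :
    cs M h (MonoidAlgebra.single g 1 * (x * y)) =
      x.coeff.sum fun k a => a * cs M h (MonoidAlgebra.single (g * k) 1 * y) := by
  classical
  induction x using MonoidAlgebra.induction_linear with
  | zero => simp
  | add x x' hx hx' =>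
    rw [add_mul, mul_add, map_add, hx, hx', MonoidAlgebra.coeff_add, Finsupp.sum_add_index']
    · intro a; rw [zero_mul]
    · intro a b c; rw [add_mul]
  | single k b =>
    rw [MonoidAlgebra.coeff_single, Finsupp.sum_single_index (by rw [zero_mul]), ← mul_assoc,
      MonoidAlgebra.single_mul_single, one_mul]
    have h2 : (MonoidAlgebra.single (g * k) b : MonoidAlgebra ℤ G) =
        b • MonoidAlgebra.single (g * k) 1 := by
      rw [MonoidAlgebra.smul_single, smul_eq_mul, mul_one]
    rw [h2, smul_mul_assoc, map_zsmul, smul_eq_mul]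

lemma opZ_cs (e : Mt G n) (he : e * e = e) (M : Subgroup G) (j : Fin n) (h : G)
    (y : G × Fin n) :
    opZ e (fun y => cs M h (MonoidAlgebra.single y.1 1 * e y.2 j)) y =
      cs M h (MonoidAlgebra.single y.1 1 * e y.2 j) := by
  obtain ⟨g, i⟩ := y
  have h1 : e i j = ∑ l, e i l * e l j := by
    conv_lhs => rw [← he]
    rw [Matrix.mul_apply]
  show opZ e (fun y => cs M h (MonoidAlgebra.single y.1 1 * e y.2 j)) (g, i) =
    cs M h (MonoidAlgebra.single g 1 * e i j)
  rw [h1, Finset.mul_sum, map_sum]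
  unfold opZ
  refine Finset.sum_congr rfl fun l _ => ?_
  rw [cs_mul]

lemma cs_inv (M : Subgroup G) (m g h : G) (hm : m ∈ M) (y : MonoidAlgebra ℤ G) :
    cs M h (MonoidAlgebra.single (m * g) 1 * y) = cs M h (MonoidAlgebra.single g 1 * y) := by
  classical
  rw [cs_filter, cs_filter]
  refine Finset.sum_congr (Finset.filter_congr fun k _ => ?_) fun _ _ => rfl
  have h1 : m * g * k * h⁻¹ = m * (g * k * h⁻¹) := by simp only [mul_assoc]
  rw [h1, M.mul_mem_cancel_left hm]

lemma opZ_mul (e : Mt G n) (c : ℤ) (F F' : G × Fin n → ℤ) (hF : ∀ y, F y = c * F' y)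
    (y : G × Fin n) : opZ e F y = c * opZ e F' y := by
  unfold opZ
  rw [Finset.mul_sum]
  refine Finset.sum_congr rfl fun j _ => ?_
  rw [Finsupp.sum, Finsupp.sum, Finset.mul_sum]
  refine Finset.sum_congr rfl fun k _ => ?_
  rw [hF]
  ring

lemma pow_dvd {p : ℕ} [hp : Fact p.Prime] (e : Mt G n) (M : Subgroup G) (he : e * e = e)
    (h : ∀ S : Finset (G × Fin n),
      IP (1 - opM e : Fn G n p →ₗ[ZMod p] Fn G n p) M (S : Set (G × Fin n))) (t : ℕ) :
    ∀ F : G × Fin n → ℤ, (∀ m ∈ M, ∀ y : G × Fin n, F (m * y.1, y.2) = F y) →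
      (∀ y, opZ e F y = F y) → ∀ y, (p : ℤ) ^ t ∣ F y := by
  induction t with
  | zero => intro F _ _ y; rw [pow_zero]; exact one_dvd _
  | succ t ih =>
    intro F hF1 hF2 y
    have h1 : ∀ y, (p : ℤ) ∣ F y := by
      intro y
      rw [← ZMod.intCast_zmod_eq_zero_iff_dvd]
      have h2 := opM_zero e M he h (fun y => ((F y : ℤ) : ZMod p)) (fun m hm => by
        funext y
        rw [tl_apply]
        beta_reduce
        rw [hF1 m hm y]) y
      rw [opM_cast, hF2] at h2
      exact h2
    choose F' hF' using h1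
    have hp0 : (p : ℤ) ≠ 0 := by exact_mod_cast hp.out.ne_zero
    have h3 := ih F' (fun m hm y => by
        have h4 := hF1 m hm y
        rw [hF' (m * y.1, y.2), hF' y] at h4
        exact mul_left_cancel₀ hp0 h4) (fun y => by
        have h4 := hF2 y
        rw [opZ_mul e p F F' hF' y, hF' y] at h4
        exact mul_left_cancel₀ hp0 h4) y
    rw [hF' y, pow_succ']
    exact mul_dvd_mul_left _ h3

end IC6b

theorem pr_C6b : StC6b.{u} := by
  intro G _ n p hp e M he h i j g k
  obtain ⟨F, hF⟩ : ∃ F : G × Fin n → ℤ,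
      F = fun y => cs M k (MonoidAlgebra.single y.1 1 * e y.2 j) := ⟨_, rfl⟩
  have h1 : ∀ m ∈ M, ∀ y : G × Fin n, F (m * y.1, y.2) = F y := by
    intro m hm y
    rw [hF]
    exact IC6b.cs_inv M m y.1 k hm _
  have h2 : ∀ y, IC6b.opZ e F y = F y := by
    intro y
    rw [hF]
    exact IC6b.opZ_cs e he M j k y
  have h3 : ∀ t : ℕ, (p : ℤ) ^ t ∣ F (g, i) := fun t =>
    IC6b.pow_dvd e M he h t F h1 h2 (g, i)
  have h4 : F (g, i) = 0 := by
    by_contra hne
    have h5 := Int.natAbs_dvd_natAbs.mpr (h3 (F (g, i)).natAbs)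
    rw [Int.natAbs_pow, Int.natAbs_natCast] at h5
    have h6 := Nat.le_of_dvd (Int.natAbs_pos.mpr hne) h5
    have h7 : (F (g, i)).natAbs < p ^ (F (g, i)).natAbs := Nat.lt_pow_self hp.out.one_lt
    omega
  rw [hF] at h4
  exact h4

end

end Pool.MP_79a731_al.CS
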