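import Pool.Agent.Work.MP_79a731_al.CS.Stmts

/-!
# MP_79a731_al, block CS, item C7a (helper5)
-/

set_option autoImplicit false

namespace Pool.MP_79a731_al.CS

universe u

namespace IC7a

theorem zero_of_dual' (p : ℕ) [Fact p.Prime] (Q : Type u) [AddCommGroup Q] [Module (ZMod p) Q]
    (v : Q) (hv : ∀ χ : Q →+ ZMod p, χ v = 0) : v = 0 :=
  (Module.forall_dual_apply_eq_zero_iff (ZMod p) v).1 fun φ => hv φ.toAddMonoidHom

theorem zero_of_dual (p : ℕ) [Fact p.Prime] (Q : Type u) [AddCommGroup Q]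
    (h : ∀ x : Q, p • x = 0) (v : Q) (hv : ∀ χ : Q →+ ZMod p, χ v = 0) : v = 0 :=
  @zero_of_dual' p _ Q _ (AddCommGroup.zmodModule h) v hv

theorem mem_range {A : Type u} [AddCommGroup A] (p : ℕ) [Fact p.Prime]
    (hχ : ∀ χ : A →+ ZMod p, χ = 0) (a : A) : ∃ b : A, (p : ℤ) • b = a := by
  let B : Submodule ℤ A := LinearMap.range (LinearMap.lsmul ℤ A (p : ℤ))
  have hk : ∀ x : A ⧸ B, p • x = 0 := by
    intro x
    obtain ⟨y, rfl⟩ := Submodule.mkQ_surjective B x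
    rw [← map_nsmul, Submodule.mkQ_apply, Submodule.Quotient.mk_eq_zero]
    exact ⟨y, natCast_zsmul y p⟩
  have h1 : B.mkQ a = 0 := by
    refine zero_of_dual p (A ⧸ B) hk (B.mkQ a) fun φ => ?_
    have h2 := hχ (φ.comp B.mkQ.toAddMonoidHom)
    exact DFunLike.congr_fun h2 a
  rw [Submodule.mkQ_apply, Submodule.Quotient.mk_eq_zero] at h1
  obtain ⟨b, hb⟩ := h1
  exact ⟨b, hb⟩

end IC7a

open IC7a in
theorem pr_C7a : StC7a.{u} := by
  intro A _ _ p hp hχ
  have : Fact p.Prime := ⟨hp⟩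
  have hin : (⊤ : Submodule ℤ A) ≤ Ideal.span {(p : ℤ)} • (⊤ : Submodule ℤ A) := by
    intro a _
    obtain ⟨b, hb⟩ := mem_range p hχ a
    rw [← hb]
    exact Submodule.smul_mem_smul (Ideal.mem_span_singleton_self _) Submodule.mem_top
  obtain ⟨r, hr, hr0⟩ := Submodule.exists_sub_one_mem_and_smul_eq_zero_of_fg_of_le_smul
    (Ideal.span {(p : ℤ)}) (⊤ : Submodule ℤ A) Module.Finite.fg_top hin
  refine ⟨r.natAbs, ?_, fun a => ?_⟩
  · rw [Nat.coprime_comm, Nat.Prime.coprime_iff_not_dvd hp]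
    intro h
    have h1 : (p : ℤ) ∣ r := Int.natCast_dvd.2 h
    have h2 : (p : ℤ) ∣ r - 1 := Ideal.mem_span_singleton.1 hr
    have h3 : (p : ℤ) ∣ 1 := by
      have h4 := dvd_sub h1 h2
      rwa [sub_sub_cancel] at h4
    have h5 : p ∣ 1 := by exact_mod_cast h3
    exact hp.one_lt.ne' (Nat.dvd_one.1 h5)
  · have h1 : r • a = 0 := hr0 a Submodule.mem_top
    rcases Int.natAbs_eq r with h | h
    · rw [h, natCast_zsmul] at h1
      exact h1
    · rw [h, neg_smul, natCast_zsmul, neg_eq_zero] at h1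
      exact h1

end Pool.MP_79a731_al.CS
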