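import Pool.Agent.Work.MP_79a731_al.CS.Stmts

/-! # C8: no relative indicability in terms of homomorphisms -/

set_option autoImplicit false

namespace Pool.MP_79a731_al.CS

universe u

theorem pr_C8 : StC8.{u} := by
  intro G _ p M N h
  classical
  unfold RelInd at h
  push Not at h
  obtain ⟨B, h1, h2, h3, h4⟩ := h
  refine ⟨B, h1, h2, h3, fun χ hM => ?_⟩
  have h5 := h4 (fun g => if h : g ∈ B then (χ ⟨g, h⟩).toAdd else 0) (by
    intro a ha b hb
    rw [dif_pos ha, dif_pos hb, dif_pos (B.mul_mem ha hb)]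
    have h6 : (⟨a * b, B.mul_mem ha hb⟩ : B) = ⟨a, ha⟩ * ⟨b, hb⟩ := rfl
    rw [h6, map_mul]
    rfl) (by
    intro a ha
    rw [dif_pos (h1.le ha), hM ⟨a, h1.le ha⟩ ha]
    rfl)
  ext a
  have h6 := h5 a a.2
  rw [dif_pos a.2] at h6
  exact h6

end Pool.MP_79a731_al.CS
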