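import Pool.Agent.Work.MP_79a731_al.H5.Mod

/-!
Coset sums of idempotent matrices over an integral group ring with respect to an arbitrary (not
necessarily normal) subgroup.
-/

set_option autoImplicit false

namespace Pool.MP_79a731_al.CS

open Function Pool.MP_79a731_al.H5

noncomputable section

variable {G : Type*} [Group G] {n : ℕ}

open Classical in
/-- the sum of the coefficients of `y` over the right coset `L h` -/
def cs (L : Subgroup G) (h : G) : MonoidAlgebra ℤ G →+ ℤ where
  toFun y := y.coeff.sum fun k a => if k * h⁻¹ ∈ L then a else 0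
  map_zero' := by simp
  map_add' x y := by
    rw [MonoidAlgebra.coeff_add, Finsupp.sum_add_index']
    · intro a; simp
    · intro a b c; split_ifs <;> simp

open Classical in
lemma cs_apply (L : Subgroup G) (h : G) (y : MonoidAlgebra ℤ G) :
    cs L h y = y.coeff.sum fun k a => if k * h⁻¹ ∈ L then a else 0 := rfl

open Classical in
lemma cs_single (L : Subgroup G) (h k : G) (a : ℤ) :
    cs L h (MonoidAlgebra.single k a) = if k * h⁻¹ ∈ L then a else 0 := by
  rw [cs_apply, MonoidAlgebra.coeff_single, Finsupp.sum_single_index]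
  simp

/-- translation from the left -/
lemma cs_single_mul (L : Subgroup G) (g h : G) (a : ℤ) (y : MonoidAlgebra ℤ G) :
    cs L h (MonoidAlgebra.single g a * y) = a * cs (L.map (MulAut.conj g⁻¹).toMonoidHom) (g⁻¹ * h) y := by
  classical
  induction y using MonoidAlgebra.induction_linear with
  | zero => simp
  | add x y hx hy => rw [mul_add, map_add, map_add, hx, hy, mul_add]
  | single k b =>
    rw [MonoidAlgebra.single_mul_single, cs_single, cs_single]
    have h1 : g * k * h⁻¹ ∈ L ↔ k * (g⁻¹ * h)⁻¹ ∈ L.map (MulAut.conj g⁻¹).toMonoidHom := by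
      rw [Subgroup.mem_map]
      constructor
      · intro h2
        refine ⟨_, h2, ?_⟩
        simp [mul_assoc]
      · rintro ⟨x, hx, hx'⟩
        have h3 : x = g * k * h⁻¹ := by
          have h4 : g⁻¹ * x * g = k * (g⁻¹ * h)⁻¹ := by
            rw [← hx']; simp
          have h5 : x = g * (g⁻¹ * x * g) * g⁻¹ := by group
          rw [h5, h4]; group
        rw [← h3]; exact hx
    by_cases h2 : g * k * h⁻¹ ∈ L
    · rw [if_pos h2, if_pos (h1.mp h2)]
    · rw [if_neg h2, if_neg (fun h3 => h2 (h1.mpr h3)), mul_zero]

open Classical in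
/-- the coset sums of a translate as a filtered sum -/
lemma cs_filter (L : Subgroup G) (g h : G) (y : MonoidAlgebra ℤ G) :
    cs L h (MonoidAlgebra.single g 1 * y) =
      ∑ k ∈ y.coeff.support with g * k * h⁻¹ ∈ L, y.coeff k := by
  rw [Finset.sum_filter]
  change _ = y.coeff.sum fun k a => if g * k * h⁻¹ ∈ L then a else 0
  induction y using MonoidAlgebra.induction_linear with
  | zero => simp
  | add x y hx hy =>
    rw [mul_add, map_add, hx, hy, MonoidAlgebra.coeff_add, Finsupp.sum_add_index']
    · intro a; simp
    · intro a b c; split_ifs <;> simp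
  | single k b =>
    rw [MonoidAlgebra.single_mul_single, cs_single, one_mul, MonoidAlgebra.coeff_single,
      Finsupp.sum_single_index]
    simp

/-- all sums of the coefficients of the left translates of the entries of `e` over the right cosets
of `L` vanish -/
def Cs (L : Subgroup G) (e : Mt G n) : Prop :=
  ∀ (i j : Fin n) (g h : G), cs L h (MonoidAlgebra.single g 1 * e i j) = 0

/-- `M` is generated, as an additive group, by the elements `(g - 1) m` with `g ∈ L` -/
def LPerf (L : Subgroup G) (M : Type*) [AddCommGroup M] [Module (MonoidAlgebra ℤ G) M] : Prop :=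
  AddSubgroup.closure {x : M | ∃ g ∈ L, ∃ m : M,
    x = (MonoidAlgebra.single g (1 : ℤ) - 1 : MonoidAlgebra ℤ G) • m} = ⊤

/-- the sum of the diagonal entries -/
def dg (e : Mt G n) : MonoidAlgebra ℤ G := ∑ i, e i i

/-- `B` is generated by `M` and a finite set -/
def FinOver (M B : Subgroup G) : Prop := ∃ F : Finset G, B = M ⊔ Subgroup.closure (F : Set G)

/-- every subgroup strictly between `M` and `N` (included) which is finitely generated over `M` has a
nontrivial character of order `p` which is trivial on `M` -/
def RelInd (p : ℕ) (M N : Subgroup G) : Prop :=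
  ∀ B : Subgroup G, M < B → B ≤ N → FinOver M B → ∃ χ : G → ZMod p,
    (∀ a ∈ B, ∀ b ∈ B, χ (a * b) = χ a + χ b) ∧ (∀ a ∈ M, χ a = 0) ∧ ∃ a ∈ B, χ a ≠ 0

end

end Pool.MP_79a731_al.CS
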