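import Pool.Agent.Work.MP_79a731_al.CS.Stmts

/-!
Item C7 of the block CS: perfectness.
-/

set_option autoImplicit false

namespace Pool.MP_79a731_al.CS

open Function Pool.MP_79a731_al.H5

noncomputable section

universe u

namespace IC7

/-- the elements of an abelian group killed by a number prime to `p` -/
def TT (A : Type u) [CommGroup A] (p : ℕ) : Subgroup A where
  carrier := {x | ∃ m : ℕ, m.Coprime p ∧ x ^ m = 1}
  one_mem' := ⟨1, Nat.coprime_one_left p, one_pow 1⟩
  mul_mem' := by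
    rintro a b ⟨m, hm, ham⟩ ⟨k, hk, hbk⟩
    refine ⟨m * k, Nat.Coprime.mul_left hm hk, ?_⟩
    rw [mul_pow, pow_mul, ham, one_pow, one_mul, mul_comm, pow_mul, hbk, one_pow]
  inv_mem' := by
    rintro a ⟨m, hm, ham⟩
    exact ⟨m, hm, by rw [inv_pow, ham, inv_one]⟩

lemma mem_TT {A : Type u} [CommGroup A] {p : ℕ} {x : A} :
    x ∈ TT A p ↔ ∃ m : ℕ, m.Coprime p ∧ x ^ m = 1 := Iff.rfl

lemma mem_TT_of_pow {A : Type u} [CommGroup A] {p r : ℕ} {x : A} (hr : r.Coprime p)
    (h : x ^ r ∈ TT A p) : x ∈ TT A p := by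
  obtain ⟨m, hm, h1⟩ := h
  exact ⟨r * m, Nat.Coprime.mul_left hr hm, by rw [pow_mul]; exact h1⟩

lemma eq_one_of_forall {A : Type u} [CommGroup A] {x : A}
    (h : ∀ p : ℕ, p.Prime → x ∈ TT A p) : x = 1 := by
  by_contra hne
  have h1 : orderOf x ≠ 1 := fun h2 => hne (orderOf_eq_one_iff.mp h2)
  obtain ⟨p, hp, hd⟩ := Nat.exists_prime_and_dvd h1
  obtain ⟨m, hm, hxm⟩ := h p hp
  have h2 : p ∣ m := hd.trans (orderOf_dvd_of_pow_eq_one hxm)
  have h3 : p ∣ 1 := by
    have := Nat.dvd_gcd h2 (dvd_refl p)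
    rwa [hm] at this
  exact hp.one_lt.ne' (Nat.dvd_one.mp h3)

variable {G : Type u} [Group G]

/-- the quotient of the abelianization -/
def ph (V : Subgroup G) (p : ℕ) : V →* (Abelianization V ⧸ TT (Abelianization V) p) :=
  (QuotientGroup.mk' (TT (Abelianization V) p)).comp Abelianization.of

lemma ph_eq_one {V : Subgroup G} {p : ℕ} {v : V} :
    ph V p v = 1 ↔ Abelianization.of v ∈ TT (Abelianization V) p := by
  change ((Abelianization.of v : Abelianization V) :
    Abelianization V ⧸ TT (Abelianization V) p) = 1 ↔ _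
  rw [QuotientGroup.eq_one_iff]

lemma ph_of_pow {V : Subgroup G} {p r : ℕ} {v : V} (hr : r.Coprime p) (h : ph V p v ^ r = 1) :
    ph V p v = 1 := by
  rw [← map_pow, ph_eq_one, map_pow] at h
  rw [ph_eq_one]
  exact mem_TT_of_pow hr h

/-- the kernel as a subgroup of `G` -/
def MM (V : Subgroup G) (p : ℕ) : Subgroup G := (ph V p).ker.map V.subtype

lemma mem_MM {V : Subgroup G} {p : ℕ} {a : G} :
    a ∈ MM V p ↔ ∃ h : a ∈ V, ph V p ⟨a, h⟩ = 1 := by
  unfold MM
  rw [Subgroup.mem_map]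
  constructor
  · rintro ⟨v, hv, rfl⟩
    exact ⟨v.2, hv⟩
  · rintro ⟨h, h1⟩
    exact ⟨⟨a, h⟩, h1, rfl⟩

lemma MM_le (V : Subgroup G) (p : ℕ) : MM V p ≤ V := fun _ ha => (mem_MM.mp ha).1

theorem MM_eq (hC7a : StC7a.{u}) {V : Subgroup G} {p : ℕ} (hp : p.Prime)
    (h : MM V p < V → ¬ RelInd p (MM V p) V) : MM V p = V := by
  classical
  by_contra hne
  have hlt : MM V p < V := lt_of_le_of_ne (MM_le V p) hne
  have h0 := h hlt
  unfold RelInd at h0
  push Not at h0
  obtain ⟨B, hMB, hBV, ⟨F, hF⟩, hB⟩ := h0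
  -- the image of `B`
  let C : Subgroup (Abelianization V ⧸ TT (Abelianization V) p) := (B.subgroupOf V).map (ph V p)
  have hC : ∀ (g : G) (hg : g ∈ B), ph V p ⟨g, hBV hg⟩ ∈ C := by
    intro g hg
    exact Subgroup.mem_map.mpr ⟨⟨g, hBV hg⟩, hg, rfl⟩
  have hFB : ∀ f ∈ F, f ∈ B := by
    intro f hf
    rw [hF]
    exact (le_sup_right : Subgroup.closure (F : Set G) ≤ _) (Subgroup.subset_closure hf)
  let S : Set V := {v | (v : G) ∈ F}
  have hS : S.Finite := by
    have h1 : S = (Subtype.val : V → G) ⁻¹' (F : Set G) := rfl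
    rw [h1]
    exact F.finite_toSet.preimage Subtype.val_injective.injOn
  have hCS : C = Subgroup.closure (ph V p '' S) := by
    apply le_antisymm
    · have h1 : B ≤ ((Subgroup.closure (ph V p '' S)).comap (ph V p)).map V.subtype := by
        conv_lhs => rw [hF]
        rw [sup_le_iff, Subgroup.closure_le]
        constructor
        · intro a ha
          obtain ⟨haV, ha1⟩ := mem_MM.mp ha
          refine ⟨⟨a, haV⟩, ?_, rfl⟩
          change ph V p ⟨a, haV⟩ ∈ Subgroup.closure (ph V p '' S)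
          rw [ha1]
          exact Subgroup.one_mem _
        · intro f hf
          refine ⟨⟨f, hBV (hFB f hf)⟩, ?_, rfl⟩
          change ph V p ⟨f, hBV (hFB f hf)⟩ ∈ Subgroup.closure (ph V p '' S)
          exact Subgroup.subset_closure ⟨⟨f, hBV (hFB f hf)⟩, hf, rfl⟩
      rintro _ ⟨v, hv, rfl⟩
      obtain ⟨w, hw, hwv⟩ := h1 (show (v : G) ∈ B from hv)
      have h2 : w = v := Subtype.ext hwv
      rw [← h2]
      exact hw
    · rw [Subgroup.closure_le]
      rintro _ ⟨v, hv, rfl⟩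
      exact ⟨v, hFB _ hv, rfl⟩
  have hCfg : C.FG := by
    rw [Subgroup.fg_iff]
    exact ⟨ph V p '' S, hCS.symm, hS.image _⟩
  have h1 : Group.FG C := (Group.fg_iff_subgroup_fg C).mpr hCfg
  have h2 : AddGroup.FG (Additive C) := GroupFG.iff_add_fg.mp h1
  have h3 : Module.Finite ℤ (Additive C) := Module.Finite.iff_addGroup_fg.mpr h2
  obtain ⟨r, hr, hrC⟩ := hC7a (Additive C) p hp (by
    intro ψ
    have h4 := hB (fun g => if h : g ∈ B then
      ψ (Additive.ofMul (⟨ph V p ⟨g, hBV h⟩, hC g h⟩ : C)) else 0) (by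
        intro a ha b hb
        rw [dif_pos ha, dif_pos hb, dif_pos (B.mul_mem ha hb), ← map_add]
        rfl) (by
        intro a ha
        have haB : a ∈ B := hMB.le ha
        rw [dif_pos haB]
        obtain ⟨haV, ha1⟩ := mem_MM.mp ha
        have h5 : (⟨ph V p ⟨a, hBV haB⟩, hC a haB⟩ : C) = 1 := Subtype.ext ha1
        rw [h5]
        exact map_zero ψ)
    ext x
    obtain ⟨v, hv, hvx⟩ := x.2
    have h5 := h4 v hv
    rw [dif_pos (show (v : G) ∈ B from hv)] at h5
    have h6 : x = (⟨ph V p ⟨v, hBV hv⟩, hC v hv⟩ : C) := Subtype.ext hvx.symm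
    rw [h6]
    exact h5)
  have hBM : B ≤ MM V p := by
    intro a ha
    rw [mem_MM]
    refine ⟨hBV ha, ph_of_pow hr ?_⟩
    have h4 := hrC (Additive.ofMul (⟨ph V p ⟨a, hBV ha⟩, hC a ha⟩ : C))
    exact congrArg (fun x : Additive C => ((x.toMul : C) :
      Abelianization V ⧸ TT (Abelianization V) p)) h4
  exact absurd hMB (not_lt_of_ge hBM)

end IC7

/-- item C7 -/
theorem pr_C7 (hC7a : StC7a.{u}) : StC7.{u} := by
  intro G _ V h
  apply le_antisymm (Subgroup.commutator_le.mpr fun a ha b hb => by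
    rw [commutatorElement_def]
    exact V.mul_mem (V.mul_mem (V.mul_mem ha hb) (V.inv_mem ha)) (V.inv_mem hb))
  intro a ha
  have h1 : (Abelianization.of (⟨a, ha⟩ : V)) = 1 := by
    apply IC7.eq_one_of_forall
    intro p hp
    have h2 := IC7.MM_eq hC7a hp (fun hlt => h (IC7.MM V p) hlt p hp)
    have h3 : a ∈ IC7.MM V p := by rw [h2]; exact ha
    obtain ⟨h4, h5⟩ := IC7.mem_MM.mp h3
    exact IC7.ph_eq_one.mp h5
  have h2 : (⟨a, ha⟩ : V) ∈ commutator V := by
    rw [← Abelianization.ker_of]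
    exact h1
  have h3 : (commutator V).map V.subtype = ⁅V, V⁆ := Subgroup.map_subtype_commutator V
  rw [← h3]
  exact ⟨⟨a, ha⟩, h2, rfl⟩

end

end Pool.MP_79a731_al.CS
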