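import Pool.Agent.Work.MP_79a731_al.CS.Stmts

/-!
The assembly of the block CS.
-/

set_option autoImplicit false

namespace Pool.MP_79a731_al.CS

open Function Pool.MP_79a731_al.H5

noncomputable section

universe u v

theorem pr_C6 (h5 : StC5.{u}) (h6a : StC6a.{u}) (h6b : StC6b.{u}) : StC6.{u} := by
  intro G _ n e V M p hp he hV hMV hR
  have := Fact.mk hp
  refine h6b G n p e M he fun S => ?_
  refine h5 G n p (1 - opM e) (fun g f => ?_) M V hMV hR S (h6a G n p e V hV S)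
  have h1 : ∀ f : Fn G n p, (1 - opM e : Fn G n p →ₗ[ZMod p] Fn G n p) f = f - opM e f :=
    fun f => rfl
  rw [h1, h1, map_sub, opM_tl]

/-- the main theorem in terms of the predicates of this folder -/
theorem main (h1 : StC1.{u, v}) (h2 : StC2.{u}) (h3 : StC3.{u}) (h4 : StC4.{u}) (h6 : StC6.{u})
    (h7 : StC7.{u}) (h8 : StC8.{u}) {G : Type u} [Group G] (P : Type v) [AddCommGroup P]
    [Module (MonoidAlgebra ℤ G) P] (hfin : Module.Finite (MonoidAlgebra ℤ G) P)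
    (hproj : Module.Projective (MonoidAlgebra ℤ G) P) (hnt : Nontrivial P) :
    ∃ F : Finset G, (1 : G) ∉ F ∧ ∀ L : Subgroup G, LPerf L P →
      (∀ g : G, ∃ v ∈ L, g * v * g⁻¹ ∈ F) ∧ Infinite L ∧
      ∃ V : Subgroup G, V ≤ L ∧ LPerf V P ∧ (∀ M : Subgroup G, M < V → ¬ LPerf M P) ∧
        ⁅V, V⁆ = V ∧
        ∀ M : Subgroup G, M < V → ∀ p : ℕ, p.Prime →
          ∃ B : Subgroup G, M < B ∧ B ≤ V ∧
            (∃ S : Finset G, B = M ⊔ Subgroup.closure (S : Set G)) ∧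
            ∀ χ : B →* Multiplicative (ZMod p), (∀ b : B, (b : G) ∈ M → χ b = 1) → χ = 1 := by
  obtain ⟨n, e, he, he0, heL⟩ := h1 G P hfin hproj
  have hne : e ≠ 0 := by
    intro h
    have := he0 h
    exact not_subsingleton P this
  obtain ⟨F, hF, hF'⟩ := h3 G n e he hne
  refine ⟨F, hF, fun L hL => ⟨hF' L ((heL L).mp hL), h4 G n e he hne L ((heL L).mp hL), ?_⟩⟩
  obtain ⟨V, hVL, hV, hmin⟩ := h2 G n e L ((heL L).mp hL)
  have hrel : ∀ M : Subgroup G, M < V → ∀ p : ℕ, p.Prime → ¬ RelInd p M V :=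
    fun M hM p hp hR => hmin M hM (h6 G n e V M p hp he hV hM.le hR)
  refine ⟨V, hVL, (heL V).mpr hV, fun M hM h => hmin M hM ((heL M).mp h), h7 G V hrel,
    fun M hM p hp => h8 G p M V (hrel M hM p hp)⟩

end

end Pool.MP_79a731_al.CS
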